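import Pool.Agent.Helper66.GP.Base
import Pool.Agent.Helper66.SC.Defs
import Pool.Agent.Helper22.SC.K14
import Pool.Agent.Helper22.SC.Conv

/-!
# MP_d59a59_lc: statements of all modules

`theorem st_xx : ST_xx.{u}` in YOUR folder `Pool/Agent/HelperNN/GP/Name.lean`.
All conventions are those of `Pool/Agent/Helper66/SC/Defs.lean` (forcing posets are sets of sets,
`q` is stronger than `p` when `p ⊆ q`).
-/

universe u

namespace Pool.Agent.Helper66.GP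

open ZFSet MeasureTheory Pool.Agent.Helper66.SC Pool.Agent.Helper22.SC

/-- The power set of `x` in the sense of `M`. -/
noncomputable abbrev PW (M : Set ZFSet.{u}) (x : ZFSet.{u}) : ZFSet.{u} :=
  Pool.Agent.Helper66.SC.Pow M x

/-- The image of `a` under `g`. -/
noncomputable abbrev im (a : ZFSet.{u}) (g : ZFSet.{u} → ZFSet.{u}) : ZFSet.{u} :=
  Pool.Agent.Helper66.SC.img a g

/-- Countable transitive model of ZFC. -/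
structure Ctm (M : Set ZFSet.{u}) : Prop where
  ctb : M.Countable
  zf : IsZF M ∅
  wo : WO M

/-! # 0. Kit -/

/-- KE. -/
def ST_KE : Prop := ∀ (M : Set ZFSet.{u}) (P G : ZFSet.{u}), Ctm M → P ∈ M →
  IsGeneric M P G → Ctm (Ext M G)

/-- KT: whatever is true in `M[G]` is forced (semantically) by a condition in `G`. -/
def ST_KT : Prop := ∀ (M : Set ZFSet.{u}) (P G : ZFSet.{u}), Ctm M → P ∈ M →
  IsGeneric M P G → ∀ (k : ℕ) (φ : Fml k) (v : Fin k → ZFSet.{u}), (∀ i, v i ∈ M) →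
  Sat (Ext M G) ∅ φ (fun i => val G (v i)) →
    ∃ p ∈ G, ∀ G', IsGeneric M P G' → p ∈ G' → Sat (Ext M G') ∅ φ (fun i => val G' (v i))

/-- KD: the (semantic) forcing relation is an element of `M`, for parameters `x ∈ b`. -/
def ST_KD : Prop := ∀ (M : Set ZFSet.{u}) (P : ZFSet.{u}), Ctm M → P ∈ M → ∅ ∈ P →
  ∀ (k : ℕ) (φ : Fml (k + 1)) (v : Fin k → ZFSet.{u}), (∀ i, v i ∈ M) → ∀ b ∈ M,
  ∃ D ∈ M, ∀ x ∈ b, ∀ p ∈ P, (pair x p ∈ D ↔ ∀ G', IsGeneric M P G' → p ∈ G' →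
    Sat (Ext M G') ∅ φ (Fin.cons x (fun i => val G' (v i))))

/-- The subset of `b` named by `σ ⊆ b × P`. -/
noncomputable def ev (b σ G : ZFSet.{u}) : ZFSet.{u} := b.sep (fun s => ∃ p ∈ G, pair s p ∈ σ)

/-- KS: subsets of elements of `M` have nice names. -/
def ST_KS : Prop := ∀ (M : Set ZFSet.{u}) (P G : ZFSet.{u}), Ctm M → P ∈ M →
  IsGeneric M P G → ∀ b ∈ M, (∀ σ ∈ M, ev b σ G ∈ Ext M G) ∧
    ∀ x ∈ Ext M G, x ⊆ b → ∃ σ ∈ M, σ ⊆ b.prod P ∧ x = ev b σ G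

/-- PL: the product lemma for split posets. -/
def ST_PL : Prop := ∀ (M : Set ZFSet.{u}) (P Q R : ZFSet.{u}), Ctm M → Split M P Q R →
  (∀ G, IsGeneric M P G → IsGeneric M Q (G ∩ Q) ∧ IsGeneric (Ext M (G ∩ Q)) R (G ∩ R) ∧
    Ext (Ext M (G ∩ Q)) (G ∩ R) = Ext M G) ∧
  (∀ H K, IsGeneric M Q H → IsGeneric (Ext M H) R K → ∃ G, IsGeneric M P G ∧ G ∩ Q = H ∧
    G ∩ R = K ∧ Ext (Ext M H) K = Ext M G)

/-- PP: the product lemma for arbitrary pairs of posets. -/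
def ST_PP : Prop := ∀ (M : Set ZFSet.{u}) (P Q F K : ZFSet.{u}), Ctm M → P ∈ M → Q ∈ M →
  IsGeneric M P F → IsGeneric (Ext M F) Q K →
    IsGeneric M Q K ∧ IsGeneric (Ext M K) P F ∧ Ext (Ext M F) K = Ext (Ext M K) F ∧
    ∀ D ∈ M, D ⊆ P.prod Q → (∀ p ∈ P, ∀ q ∈ Q, ∃ p' ∈ P, ∃ q' ∈ Q, p ⊆ p' ∧ q ⊆ q' ∧
      pair p' q' ∈ D) → ∃ p ∈ F, ∃ q ∈ K, pair p q ∈ D

/-! # 1. Finite partial functions, Levy collapse, inaccessible cardinals -/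

/-- Finite functions contained in the relation `T`. -/
noncomputable def Fn (T : ZFSet.{u}) : ZFSet.{u} :=
  T.powerset.sep (fun p => {x | x ∈ p}.Finite ∧
    ∀ x y z, pair x y ∈ p → pair x z ∈ p → y = z)

/-- All `((α, n), ξ)` with `l ≤ α < k` and `ξ < α`. -/
noncomputable def TC (l k : Ordinal.{u}) : ZFSet.{u} :=
  (((oz k).prod ZFSet.omega).prod (oz k)).sep (fun t => ∃ (α ξ : Ordinal.{u}) (n : ℕ),
    l ≤ α ∧ ξ < α ∧ t = pair (pair (oz α) (nz n)) (oz ξ))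

/-- The collapse `Coll(ω, [l, k))`. -/
noncomputable def Col (l k : Ordinal.{u}) : ZFSet.{u} := Fn (TC l k)

/-- FN. -/
def ST_FN : Prop := U KZ.{u} (fun _ _ (T : ZFSet.{u}) => Fn T) ∧
  URel KZ.{u} (fun _ _ (x : ZFSet.{u}) => {y | y ∈ x}.Finite) ∧
  (∀ (M A : Set ZFSet.{u}), IsZF M A → ∀ x : ZFSet.{u}, (∀ y ∈ x, y ∈ M) →
    {y | y ∈ x}.Finite → x ∈ M) ∧
  (∀ (M A : Set ZFSet.{u}), IsZF M A → ∀ T ∈ M, (∀ t ∈ T, ∃ x y, t = pair x y) →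
    Fn T ∈ M ∧ ∅ ∈ Fn T ∧ Homog M (Fn T))

/-- COL. -/
def ST_COL : Prop := U KZ.{u} (fun _ _ (p : ZFSet.{u} × ZFSet.{u}) => Col p.1.rank p.2.rank) ∧
  ∀ (M A : Set ZFSet.{u}) (l m k : Ordinal.{u}), IsZF M A → oz k ∈ M → l ≤ m → m ≤ k →
    Split M (Col l k) (Col l m) (Col m k) ∧ Homog M (Col l k) ∧ ∅ ∈ Col l k

/-- Small sets of `M` with respect to `κ`. -/
def Small (M : Set ZFSet.{u}) (κ : Ordinal.{u}) (x : ZFSet.{u}) : Prop :=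
  x ∈ M ∧ ∃ c < κ, CardLe M x (oz c)

/-- `κ` is inaccessible in `M`. -/
structure Inac (M : Set ZFSet.{u}) (κ : Ordinal.{u}) : Prop where
  mem : oz κ ∈ M
  gt : Ordinal.omega0 < κ
  pow : ∀ a < κ, ∃ c < κ, CardLe M (PW M (oz a)) (oz c)
  reg : ∀ a < κ, ∀ f ∈ M, (∀ x y z, pair x y ∈ f → pair x z ∈ f → y = z) →
    ∃ b < κ, ∀ x y : Ordinal.{u}, x < a → y < κ → pair (oz x) (oz y) ∈ f → y < b

/-- B1: closure properties of small sets. -/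
def ST_B1 : Prop := ∀ (M : Set ZFSet.{u}) (κ : Ordinal.{u}), IsZF M ∅ → WO M → Inac M κ →
  (∀ x, Small M κ x → Small M κ (PW M x)) ∧
  (∀ x y, Small M κ x → Small M κ y → Small M κ (x.prod y)) ∧
  (∀ x y, Small M κ x → Small M κ y → Small M κ (x ∪ y)) ∧
  (∀ x y, Small M κ y → x ∈ M → CardLe M x y → Small M κ x) ∧
  (∀ x, Small M κ x → Small M κ (Fn x)) ∧
  (∀ c < κ, Small M κ (oz c)) ∧
  (∀ c < κ, c + 1 < κ ∧ ¬ CardLe M (oz κ) (oz c)) ∧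
  (∀ l m, m < κ → Small M κ (Col l m)) ∧
  (∀ x, Small M κ x → ∀ f ∈ M, (∀ s y z, pair s y ∈ f → pair s z ∈ f → y = z) →
    ∃ b < κ, ∀ s ∈ x, ∀ y : Ordinal.{u}, y < κ → pair s (oz y) ∈ f → y < b)

/-- Good ordinals. -/
def Gd (M : Set ZFSet.{u}) (m : Ordinal.{u}) : Prop := Ordinal.omega0 ≤ m ∧
  CardLe M ((oz m).prod (oz m)) (oz m) ∧ CardLe M (Col 0 (m + 1)) (oz m)

/-- B2: existence of good ordinals. -/
def ST_B2 : Prop := ∀ (M : Set ZFSet.{u}) (κ : Ordinal.{u}), IsZF M ∅ → WO M → Inac M κ →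
  ∀ x, Small M κ x → ∀ l < κ, ∃ m, l < m ∧ m < κ ∧ CardLe M x (oz m) ∧ Gd M m

/-- B3: small forcing preserves inaccessibility. -/
def ST_B3 : Prop := ∀ (M : Set ZFSet.{u}) (κ : Ordinal.{u}) (P G : ZFSet.{u}), Ctm M →
  Inac M κ → Small M κ P → IsGeneric M P G →
    Inac (Ext M G) κ ∧ ∀ x, Small M κ x → Small (Ext M G) κ x

/-- B4: small sets appear at intermediate stages. -/
def ST_B4 : Prop := ∀ (M : Set ZFSet.{u}) (κ l : Ordinal.{u}) (G : ZFSet.{u}), Ctm M →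
  Inac M κ → l < κ → IsGeneric M (Col l κ) G → ∀ b, Small M κ b → ∀ x ∈ Ext M G, x ⊆ b →
    ∃ m, l ≤ m ∧ m < κ ∧ ∀ m', m ≤ m' → m' < κ → x ∈ Ext M (G ∩ Col l m')

/-- B5: small sets are countable in the Levy extension. -/
def ST_B5 : Prop := ∀ (M : Set ZFSet.{u}) (κ l : Ordinal.{u}) (G : ZFSet.{u}), Ctm M →
  Inac M κ → l < κ → IsGeneric M (Col l κ) G → ∀ x, Small M κ x →
    CardLe (Ext M G) x ZFSet.omega

/-! # 2. Quotient and absorption -/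

/-- QU: quotient forcing. -/
def ST_QU : Prop := ∀ (M : Set ZFSet.{u}) (P K B F : ZFSet.{u}), Ctm M → P ∈ M →
  IsGeneric M P K → B ∈ M → IsGeneric M B F → F ∈ Ext M K →
    ∃ Q ∈ Ext M F, Q ⊆ P ∧ IsGeneric (Ext M F) Q K ∧ Ext (Ext M F) K = Ext M K

/-- SB: Schroeder-Bernstein in `M`. -/
def ST_SB : Prop := ∀ (M A : Set ZFSet.{u}), IsZF M A → ∀ a ∈ M, ∀ b ∈ M, CardLe M a b →
  CardLe M b a → ∃ f ∈ M, IsFunc a b f ∧ (∀ y ∈ b, ∃ x ∈ a, pair x y ∈ f) ∧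
    ∀ x x' y, pair x y ∈ f → pair x' y ∈ f → x = x'

/-- ABS: the collapse of `m` absorbs posets of size at most `m`. -/
def ST_ABS : Prop := ∀ (M : Set ZFSet.{u}) (Q K g : ZFSet.{u}) (m : Ordinal.{u}), Ctm M →
  Q ∈ M → IsGeneric M Q K → oz m ∈ M → Gd M m → CardLe M Q (oz m) →
  IsGeneric (Ext M K) (Col m (m + 1)) g →
    ∃ g', IsGeneric M (Col m (m + 1)) g' ∧ Ext M g' = Ext (Ext M K) g

/-! # 3. Levy extensions -/

/-- `W` is a Levy extension of `M`. -/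
def Lev (M : Set ZFSet.{u}) (κ : Ordinal.{u}) (W : Set ZFSet.{u}) : Prop :=
  ∃ (l : Ordinal.{u}) (G : ZFSet.{u}), l < κ ∧ IsGeneric M (Col l κ) G ∧ W = Ext M G

/-- L1: one may start the collapse later. -/
def ST_L1 : Prop := ∀ (M : Set ZFSet.{u}) (κ l m : Ordinal.{u}) (G : ZFSet.{u}), Ctm M →
  Inac M κ → l ≤ m → m < κ → Gd M m → IsGeneric M (Col l κ) G →
    ∃ G', IsGeneric M (Col m κ) G' ∧ Ext M G = Ext M G'

/-- L2: truth in Levy extensions is definable in the ground model, uniformly. -/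
def ST_L2 : Prop := ∀ (k : ℕ) (φ : Fml k), ∃ ψ : Fml (k + 1), ∀ (M W : Set ZFSet.{u})
  (κ : Ordinal.{u}), Ctm M → Inac M κ → Lev M κ W → ∀ v : Fin k → ZFSet.{u},
  (∀ i, v i ∈ M) → (Sat W ∅ φ v ↔ Sat M ∅ ψ (Fin.cons (oz κ) v))

/-- L3: factoring out a small generic. -/
def ST_L3 : Prop := ∀ (M W : Set ZFSet.{u}) (κ : Ordinal.{u}) (B F : ZFSet.{u}), Ctm M →
  Inac M κ → Lev M κ W → Small M κ B → IsGeneric M B F → F ∈ W → Lev (Ext M F) κ W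

/-- L4: absorbing a small generic. -/
def ST_L4 : Prop := ∀ (M W : Set ZFSet.{u}) (κ : Ordinal.{u}) (B F : ZFSet.{u}), Ctm M →
  Inac M κ → Small M κ B → IsGeneric M B F → Lev (Ext M F) κ W → Lev M κ W

/-- L5: small subsets are in small extensions. -/
def ST_L5 : Prop := ∀ (M W : Set ZFSet.{u}) (κ : Ordinal.{u}), Ctm M → Inac M κ → Lev M κ W →
  ∀ b, Small M κ b → ∀ x ∈ W, x ⊆ b → ∃ P F, Small M κ P ∧ IsGeneric M P F ∧ F ∈ W ∧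
    x ∈ Ext M F ∧ Lev (Ext M F) κ W

/-- L6: existence and basic properties. -/
def ST_L6 : Prop := ∀ (M : Set ZFSet.{u}) (κ : Ordinal.{u}), Ctm M → Inac M κ →
  (∃ W, Lev M κ W) ∧ ∀ W, Lev M κ W → Ctm W ∧ M ⊆ W ∧
    (∀ o : Ordinal.{u}, oz o ∈ W ↔ oz o ∈ M) ∧ ∀ x, Small M κ x → CardLe W x ZFSet.omega

/-! # 4. Reals and the poset -/

/-- `V_ω`. -/
noncomputable def VO : ZFSet.{u} := ZFSet.vonNeumann Ordinal.omega0

/-- The reals (subsets of `V_ω`) of `M`. -/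
noncomputable def Rl (M : Set ZFSet.{u}) : ZFSet.{u} := PW M VO

/-- `x` is a function from `ω` to `ω`. -/
abbrev FF (x : ZFSet.{u}) : Prop := IsFunc ZFSet.omega ZFSet.omega x

/-- VO. -/
def ST_VO : Prop := U KZ.{u} (fun _ _ (_ : PUnit.{u + 2}) => VO.{u}) ∧
  (∀ x : ZFSet.{u}, x ⊆ VO → {y | y ∈ x}.Finite → x ∈ VO) ∧
  (∀ x y : ZFSet.{u}, x ∈ VO → y ∈ VO → pair x y ∈ VO) ∧
  (∀ x : ZFSet.{u}, x ∈ VO → {y | y ∈ x}.Finite) ∧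
  (∀ n : ℕ, nz.{u} n ∈ VO) ∧ ZFSet.omega.{u} ⊆ VO ∧
  (∀ x : ZFSet.{u}, FF x → x ⊆ VO) ∧
  (∀ (M A : Set ZFSet.{u}), IsZF M A → VO ∈ M ∧ Rl M ∈ M ∧ (Rl M).IsTransitive ∧
    ∀ x ∈ VO.{u}, x ∈ M) ∧
  (∀ (M A : Set ZFSet.{u}), IsZF M A → WO M → CardLe M VO ZFSet.omega ∧
    CardLe M (ZFSet.omega.prod ZFSet.omega) ZFSet.omega)

/-- `p` is a condition: a countable set of pairs `(x, s)` with `x ∈ ω^ω` and `s` a countable
set of elements `c ≤ x` of `ω^ω`, which is coherent. -/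
def IsP (M : Set ZFSet.{u}) (p : ZFSet.{u}) : Prop :=
  p ∈ M ∧ CardLe M p ZFSet.omega ∧
  (∀ t ∈ p, ∃ x s, t = pair x s ∧ FF x ∧ CardLe M s ZFSet.omega ∧ ∀ c ∈ s, FF c ∧ LeF c x) ∧
  ∀ x s x' s' c, pair x s ∈ p → pair x' s' ∈ p → c ∈ s → LeF c x' → c ∈ s'

/-- The poset (ordered by reverse inclusion like all our posets). -/
noncomputable def PG (M : Set ZFSet.{u}) : ZFSet.{u} :=
  (PW M ((Rl M).prod (PW M (Rl M)))).sep (fun p => IsP M p)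

/-- The set of all `c` occurring in `p`. -/
noncomputable def CP (p : ZFSet.{u}) : ZFSet.{u} := ZFSet.sUnion (im p psnd)

/-- Extension of a condition to a larger domain, without new `c`. -/
noncomputable def Xt (p a : ZFSet.{u}) : ZFSet.{u} :=
  p ∪ im a (fun x => pair x ((CP p).sep (fun c => LeF c x)))

/-- The set of all `n` with `c(n)` odd. -/
noncomputable def par (c : ZFSet.{u}) : ZFSet.{u} :=
  ZFSet.omega.sep (fun k => ∃ n m : ℕ, k = nz n ∧ pair (nz n) (nz m) ∈ c ∧ Odd m)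

/-- The relation which witnesses the failure of `GP(all)`. -/
noncomputable def AR (M : Set ZFSet.{u}) (H : ZFSet.{u}) : ZFSet.{u} :=
  ((Rl M).prod (Rl M)).sep (fun t => ∃ c ∈ CP (ZFSet.sUnion H), ∃ x, FF x ∧ LeF c x ∧
    t = pair x (par c))

/-- P1: uniform definability. -/
def ST_P1 : Prop :=
  U KZ.{u} (fun N _ (_ : PUnit.{u + 2}) => PG N) ∧
  U KZ.{u} (fun N _ (_ : PUnit.{u + 2}) => Rl N) ∧
  U KZ.{u} (fun _ _ (p : ZFSet.{u}) => CP p) ∧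
  U KZ.{u} (fun _ _ (p : ZFSet.{u} × ZFSet.{u}) => Xt p.1 p.2) ∧
  U KZ.{u} (fun _ _ (c : ZFSet.{u}) => par c) ∧
  U KZ.{u} (fun N _ (H : ZFSet.{u}) => AR N H) ∧
  URel KZ.{u} (fun N _ (p : ZFSet.{u}) => IsP N p) ∧
  URel KZ.{u} (fun _ _ (x : ZFSet.{u}) => FF x) ∧
  URel KZ.{u} (fun _ _ (p : ZFSet.{u} × ZFSet.{u}) => LeF p.1 p.2) ∧
  ∀ (M A : Set ZFSet.{u}), IsZF M A → PG M ∈ M ∧ ∅ ∈ PG M ∧ ∀ p, (p ∈ PG M ↔ IsP M p)

/-- P2: extension of conditions. -/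
def ST_P2 : Prop := ∀ (M A : Set ZFSet.{u}), IsZF M A → WO M → ∀ p a, IsP M p → a ∈ M →
  CardLe M a ZFSet.omega → (∀ x ∈ a, FF x) →
    IsP M (Xt p a) ∧ CP (Xt p a) = CP p ∧ ∀ x ∈ a, ∃ s, pair x s ∈ Xt p a

/-- P3: the poset is countably closed. -/
def ST_P3 : Prop := ∀ M : Set ZFSet.{u}, IsZF M ∅ → WO M →
  ChainClosed M (PG M) (oz Ordinal.omega0)

/-- P4: no new reals. -/
def ST_P4 : Prop := ∀ (M : Set ZFSet.{u}) (H : ZFSet.{u}), Ctm M → IsGeneric M (PG M) H →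
  ∀ x ∈ Ext M H, x ⊆ VO → x ∈ M

/-- P5: the generic object. -/
def ST_P5 : Prop := ∀ (M : Set ZFSet.{u}) (H : ZFSet.{u}), Ctm M → IsGeneric M (PG M) H →
  (∀ c ∈ CP (ZFSet.sUnion H), FF c ∧ c ∈ M) ∧
  (∀ x ∈ M, FF x → ∃ s ∈ M, CardLe M s ZFSet.omega ∧
    ∀ c, (c ∈ s ↔ c ∈ CP (ZFSet.sUnion H) ∧ LeF c x)) ∧
  (∀ p ∈ H, ∀ x s, pair x s ∈ p → ∀ c, (c ∈ s ↔ c ∈ CP (ZFSet.sUnion H) ∧ LeF c x)) ∧
  ∀ y ∈ M, y ⊆ ZFSet.omega → ∃ c ∈ CP (ZFSet.sUnion H), par c = y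

/-- CD: conditions are coded by reals. -/
def ST_CD : Prop := ∃ d : ZFSet.{u} → ZFSet.{u}, U KZ.{u} (fun _ _ x => d x) ∧
  ∀ (W : Set ZFSet.{u}), IsZF W ∅ → WO W → ∀ p, IsP W p → ∃ c ∈ Rl W, d c = p

/-! # 5. Decision -/

/-- IP: interpolation. -/
def ST_IP : Prop := ∀ (M : Set ZFSet.{u}) (P Q F K : ZFSet.{u}), Ctm M → P ∈ M → Q ∈ M →
  IsGeneric M P F → IsGeneric (Ext M F) Q K →
  (∀ x ∈ Ext M F, ∀ y ∈ Ext M K, FF x → FF y → LeF x y → ∃ w ∈ M, FF w ∧ LeF x w ∧ LeF w y) ∧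
  (∀ x ∈ Ext M F, ∀ y ∈ Ext M K, FF x → FF y → LeF y x → ∃ w ∈ M, FF w ∧ LeF y w ∧ LeF w x)

/-- TW: in a Levy extension `W` of `M`, a true existential statement about reals has a witness
which lies in a submodel `M₂` mutually generic with a given submodel `M₁ ∋ z`. -/
def ST_TW : Prop := ∀ (k : ℕ) (φ : Fml (k + 1)) (M W : Set ZFSet.{u}) (κ : Ordinal.{u}),
  Ctm M → Inac M κ → Lev M κ W → ∀ v : Fin k → ZFSet.{u}, (∀ i, v i ∈ M) →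
  ∀ e₀ ∈ Rl W, Sat W ∅ φ (Fin.cons e₀ v) → ∀ z ∈ Rl W,
    ∃ (M₁ M₂ : Set ZFSet.{u}) (e : ZFSet.{u}), Ctm M₁ ∧ Ctm M₂ ∧ M₁ ⊆ W ∧ M₂ ⊆ W ∧
      z ∈ M₁ ∧ e ∈ M₂ ∧ e ∈ Rl W ∧ Sat W ∅ φ (Fin.cons e v) ∧
      ∀ x ∈ M₁, ∀ y ∈ M₂, FF x → FF y →
        (LeF x y → ∃ w ∈ M, FF w ∧ LeF x w ∧ LeF w y) ∧
        (LeF y x → ∃ w ∈ M, FF w ∧ LeF y w ∧ LeF w x)

/-- Saturated codes: sets of strings `b` containing every string whose cylinder is contained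
in the open set `US b`. -/
def Sd (b : ZFSet.{u}) : Prop := b ⊆ Str ∧ ∀ (n : ℕ) (t : ZFSet.{u}), t ⊆ nz n →
  {x : ℕ → Bool | rl x ∩ nz n = t} ⊆ US b → pair (nz n) t ∈ b

/-- Random forcing: saturated codes of open sets of measure less than one. -/
noncomputable def RB (M : Set ZFSet.{u}) : ZFSet.{u} :=
  (PW M Str).sep (fun b => Sd b ∧ coin (US b) < 1)

/-- The filter of the real `y`. -/
noncomputable def Fy (M : Set ZFSet.{u}) (y : ZFSet.{u}) : ZFSet.{u} :=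
  (RB M).sep (fun b => ¬ InU b y)

/-- A real parameter: the measures of differences of finite unions of cylinders. -/
noncomputable def MuR : ZFSet.{u} := VO.sep (fun w => ∃ (F F' : ZFSet.{u}) (k n : ℕ),
  F ⊆ Str ∧ F' ⊆ Str ∧ w = pair (pair F F') (pair (nz k) (nz n)) ∧
    (k : ENNReal) / 2 ^ n < coin (US F \ US F'))

/-- The common hypotheses: `W` is a Levy extension of `M`, `p ∈ M` is a condition of `W` whose
domain contains all functions of `M`, and `y ∈ W` is random over `M`. -/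
structure Dec (M W : Set ZFSet.{u}) (κ : Ordinal.{u}) (p y : ZFSet.{u}) : Prop where
  ctm : Ctm M
  inac : Inac M κ
  lev : Lev M κ W
  mu : MuR ∈ M
  mem : p ∈ M
  isP : IsP W p
  dom : ∀ x ∈ M, FF x → ∃ s, pair x s ∈ p
  ymem : y ∈ W
  yom : y ⊆ ZFSet.omega
  rnd : IsGeneric M (RB M) (Fy M y)

/-- DE: decision. The variables of `φ` are `H`, `y` and the parameters `v`. -/
def ST_DE : Prop := ∀ (k : ℕ) (φ : Fml (k + 2)) (M W : Set ZFSet.{u}) (κ : Ordinal.{u})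
  (p y : ZFSet.{u}), Dec M W κ p y → ∀ v : Fin k → ZFSet.{u}, (∀ i, v i ∈ M) →
  ∀ H H', IsGeneric W (PG W) H → IsGeneric W (PG W) H' → p ∈ H → p ∈ H' →
    (Sat (Ext W H) ∅ φ (Fin.cons H (Fin.cons y v)) ↔
      Sat (Ext W H') ∅ φ (Fin.cons H' (Fin.cons y v)))

/-- DF: the decision is definable in `M[y]`, uniformly. -/
def ST_DF : Prop := ∀ (k : ℕ) (φ : Fml (k + 2)), ∃ ψ : Fml (k + 3), ∀ (M W : Set ZFSet.{u})
  (κ : Ordinal.{u}) (p y : ZFSet.{u}), Dec M W κ p y → ∀ v : Fin k → ZFSet.{u},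
  (∀ i, v i ∈ M) → ∀ H, IsGeneric W (PG W) H → p ∈ H →
    (Sat (Ext W H) ∅ φ (Fin.cons H (Fin.cons y v)) ↔
      Sat (Ext M (Fy M y)) ∅ ψ (Fin.cons (oz κ) (Fin.cons p (Fin.cons y v))))

/-- DN: density of good conditions. -/
def ST_DN : Prop := ∀ (M W : Set ZFSet.{u}) (κ : Ordinal.{u}) (H : ZFSet.{u}), Ctm M →
  Inac M κ → Lev M κ W → IsGeneric W (PG W) H → ∀ c ∈ Rl W,
    ∃ (M' : Set ZFSet.{u}) (p : ZFSet.{u}), Ctm M' ∧ M ⊆ M' ∧ Inac M' κ ∧ Lev M' κ W ∧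
      c ∈ M' ∧ p ∈ M' ∧ p ∈ H ∧ ∀ x ∈ M', FF x → ∃ s, pair x s ∈ p

/-! # 6. The inner model `L(X)[A]` -/

/-- The levels. -/
noncomputable def LX (X : ZFSet.{u}) (A : Set ZFSet.{u}) (o : Ordinal.{u}) : ZFSet.{u} :=
  X ∪ ZFSet.iUnion (fun a : Set.Iio o => DefSub A (LX X A a))
termination_by o
decreasing_by exact a.2

/-- `L(X)[A]` of `M`. -/
def LXO (M : Set ZFSet.{u}) (X : ZFSet.{u}) (A : Set ZFSet.{u}) : Set ZFSet.{u} :=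
  {x | ∃ o : Ordinal.{u}, oz o ∈ M ∧ x ∈ LX X A o}

/-- LA: `L(X)[A]` is a model of ZF. -/
def ST_LA : Prop := ∀ (M : Set ZFSet.{u}) (X A : ZFSet.{u}), IsZF M ∅ → X ∈ M → A ∈ M →
  X.IsTransitive → A ⊆ X.prod X →
    LXO M X {t | t ∈ A} ⊆ M ∧ IsZF (LXO M X {t | t ∈ A}) ∅ ∧ X ∈ LXO M X {t | t ∈ A} ∧
      A ∈ LXO M X {t | t ∈ A}

/-- LB: the elements of `L(X)[A]` are definable in `M`. -/
def ST_LB : Prop := ∀ (M : Set ZFSet.{u}) (X A : ZFSet.{u}), IsZF M ∅ → X ∈ M → A ∈ M →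
  X.IsTransitive → A ⊆ X.prod X → ∀ y ∈ LXO M X {t | t ∈ A},
    ∃ (k : ℕ) (φ : Fml (k + 3)) (v : Fin k → ZFSet.{u}),
      (∀ i, v i ∈ X ∨ ∃ o : Ordinal.{u}, oz o ∈ M ∧ v i = oz o) ∧
      ∀ t ∈ M, (t ∈ y ↔ Sat M ∅ φ (Fin.cons t (Fin.cons X (Fin.cons A v))))

/-! # 7. Measure and random reals -/

/-- Saturation. -/
noncomputable def satu (b : ZFSet.{u}) : ZFSet.{u} := Str.sep (fun s =>
  ∃ (n : ℕ) (t : ZFSet.{u}), t ⊆ nz n ∧ s = pair (nz n) t ∧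
    {x : ℕ → Bool | rl x ∩ nz n = t} ⊆ US b)

/-- MA: basic facts. -/
def ST_MA : Prop :=
  (∀ b : ZFSet.{u}, MeasurableSet (US b) ∧ IsOpen (US b)) ∧
  (∀ y : ZFSet.{u}, y ⊆ ZFSet.omega → ∃ x, rl x = y) ∧
  (∀ x : ℕ → Bool, rl.{u} x ⊆ ZFSet.omega) ∧
  (∀ b : ZFSet.{u}, b ⊆ Str → US (satu b) = US b ∧ Sd (satu b) ∧ b ⊆ satu b) ∧
  (∀ b c : ZFSet.{u}, Sd b → Sd c → (b ⊆ c ↔ US b ⊆ US c) ∧ Sd (b ∩ c) ∧
    US (b ∩ c) = US b ∩ US c) ∧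
  (∀ b c : ZFSet.{u}, US (b ∪ c) = US b ∪ US c) ∧
  (∀ (b F' : ZFSet.{u}) (k n : ℕ), b ⊆ Str → F' ∈ VO → F' ⊆ Str →
    (coin (US b \ US F') ≤ (k : ENNReal) / 2 ^ n ↔
      ∀ F ∈ VO, F ⊆ b → pair (pair F F') (pair (nz k) (nz n)) ∉ MuR)) ∧
  (∀ (b : ZFSet.{u}) (ε : ENNReal), 0 < ε → b ⊆ Str → ∃ F ∈ VO, F ⊆ b ∧
    coin (US b \ US F) < ε)

/-- MB: definability. -/
def ST_MB : Prop := U KZ.{u} (fun _ _ (_ : PUnit.{u + 2}) => Str.{u}) ∧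
  U KZ.{u} (fun _ _ (b : ZFSet.{u}) => satu b) ∧ URel KZ.{u} (fun _ _ (b : ZFSet.{u}) => Sd b) ∧
  (∃ R : ZFSet.{u} → Set ZFSet.{u} → ZFSet.{u}, U KZ.{u} (fun N _ m => R m N) ∧
    ∀ (M A : Set ZFSet.{u}), IsZF M A → MuR ∈ M → R MuR M = RB M) ∧
  (∀ (M A : Set ZFSet.{u}), IsZF M A → MuR ∈ M → RB M ∈ M ∧ ∅ ∈ RB M)

/-- MC: finitely many elements of a dense set almost cover. -/
def ST_MC : Prop := ∀ (M : Set ZFSet.{u}) (D : ZFSet.{u}), IsZF M ∅ → WO M → MuR ∈ M →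
  D ∈ M → D ⊆ RB M → (∀ b ∈ RB M, ∃ c ∈ D, b ⊆ c) → ∀ ε : ENNReal, 0 < ε →
    ∃ E : Finset ZFSet.{u}, (∀ b ∈ E, b ∈ D) ∧ coin (⋂ b ∈ E, US b) < ε

/-- ME: generic filters are given by reals. -/
def ST_ME : Prop := ∀ (M : Set ZFSet.{u}) (F : ZFSet.{u}), Ctm M → MuR ∈ M →
  IsGeneric M (RB M) F → ∃ y ∈ Ext M F, y ⊆ ZFSet.omega ∧ F = Fy M y

/-- MF: random forcing is `ω^ω`-bounding. -/
def ST_MF : Prop := ∀ (M : Set ZFSet.{u}) (F : ZFSet.{u}), Ctm M → MuR ∈ M →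
  IsGeneric M (RB M) F → ∀ x ∈ Ext M F, FF x → ∃ w ∈ M, FF w ∧ LeF x w

/-- MH: the measure estimate. `D₁ ∪ D₂` is dense. -/
def ST_MH : Prop := ∀ (M W : Set ZFSet.{u}) (D₁ D₂ : ZFSet.{u}), Ctm M → MuR ∈ M → Ctm W →
  M ⊆ W → CardLe W (PW M (RB M)) ZFSet.omega → D₁ ∈ M → D₂ ∈ M → D₁ ⊆ RB M → D₂ ⊆ RB M →
  (∀ b ∈ RB M, ∃ c, b ⊆ c ∧ (c ∈ D₁ ∨ c ∈ D₂)) → ∀ ε : ENNReal, 0 < ε →
    ∃ U ∈ W, ∃ V ∈ W, U ⊆ Str ∧ V ⊆ Str ∧ coin (US U ∩ US V) < ε ∧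
      ∀ y ∈ W, y ⊆ ZFSet.omega →
        (¬ InU U y → IsGeneric M (RB M) (Fy M y) ∧ ∃ c ∈ D₂, c ∈ Fy M y) ∧
        (¬ InU V y → IsGeneric M (RB M) (Fy M y) ∧ ∃ c ∈ D₁, c ∈ Fy M y)

/-! # 8. The final model -/

/-- FA: countable choice for reals. -/
def ST_FA : Prop := ∀ (M N : Set ZFSet.{u}), IsZF M ∅ → WO M → IsZF N ∅ → N ⊆ M →
  (∀ x ∈ Rl M, x ∈ N) → ACwR N

/-- FC: countable sets are null. -/
def ST_FC : Prop := ∀ (W : Set ZFSet.{u}) (a : ZFSet.{u}), IsZF W ∅ → a ∈ W →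
  CardLe W a ZFSet.omega → ∀ ε : ENNReal, 0 < ε → ∃ b ∈ W, b ⊆ Str ∧ coin (US b) < ε ∧
    ∀ y ∈ a, y ⊆ ZFSet.omega → InU b y

/-- FD: open sets of measure less than one do not contain all reals. -/
def ST_FD : Prop := ∀ (N : Set ZFSet.{u}) (b : ZFSet.{u}), IsZF N ∅ → b ∈ N → b ⊆ Str →
  coin (US b) < 1 → ∃ y ∈ N, y ⊆ ZFSet.omega ∧ ¬ InU b y

/-- BM: the base model. -/
def ST_BM : Prop := ∃ (M : Set ZFSet.{1}) (κ : Ordinal.{1}), Ctm M ∧ Inac M κ ∧ MuR ∈ M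

end Pool.Agent.Helper66.GP
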