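import Pool.Agent.Helper66.GP.ABSe
import Pool.Agent.Helper16.GP.SB

/-! # Absorption, part a: existence of the combinatorial data, and the theorem ABS -/

universe u

namespace Pool.Agent.Helper66.GP

open ZFSet Pool.Agent.Helper66.SC Pool.Agent.Helper22.SC
open Pool.Agent.Helper22.GP (mem_oz mem_TC mem_Col Col_mem empty_mem_Col oz_mem_of_le)

/-- Greedy choice of an antichain below `q` deciding `e x`. -/
def GPr (Q e q x ξ : ZFSet.{u}) : Prop :=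
  (q ⊆ app e ξ ∧ (app e x ⊆ app e ξ ∨ ¬ ∃ t ∈ Q, app e x ⊆ t ∧ app e ξ ⊆ t)) ∧
    ∀ ζ, ∀ _ : ζ ∈ ξ, GPr Q e q x ζ → ¬ ∃ t ∈ Q, app e ζ ⊆ t ∧ app e ξ ⊆ t
termination_by ξ.rank
decreasing_by exact rank_lt_of_mem (by assumption)

theorem gPr_iff {Q e q x ξ : ZFSet.{u}} : GPr Q e q x ξ ↔
    (q ⊆ app e ξ ∧ (app e x ⊆ app e ξ ∨ ¬ ∃ t ∈ Q, app e x ⊆ t ∧ app e ξ ⊆ t)) ∧
    ∀ ζ ∈ ξ, GPr Q e q x ζ → ¬ ∃ t ∈ Q, app e ζ ⊆ t ∧ app e ξ ⊆ t := by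
  rw [GPr]

open Classical in
/-- The characteristic function. -/
noncomputable def GA (Q e q x ξ : ZFSet.{u}) : ZFSet.{u} := if GPr Q e q x ξ then {∅} else ∅

theorem ga_iff {Q e q x ξ : ZFSet.{u}} : GA Q e q x ξ = {∅} ↔ GPr Q e q x ξ := by
  unfold GA
  split_ifs with h
  · exact ⟨fun _ => h, fun _ => rfl⟩
  · constructor
    · intro h1
      exfalso
      have : (∅ : ZFSet.{u}) ∈ ({∅} : ZFSet.{u}) := ZFSet.mem_singleton.2 rfl
      rw [← h1] at this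
      exact ZFSet.notMem_empty _ this
    · exact fun h1 => absurd h1 h

/-- One step of the recursion, with the earlier values given by `g`. -/
def GStep (p : ((((ZFSet.{u} × ZFSet.{u}) × ZFSet.{u}) × ZFSet.{u}) × ZFSet.{u}) ×
    ZFSet.{u}) : Prop :=
  (p.1.1.1.2 ⊆ app p.1.1.1.1.2 p.1.2 ∧
      (app p.1.1.1.1.2 p.1.1.2 ⊆ app p.1.1.1.1.2 p.1.2 ∨
        ¬ ∃ t ∈ p.1.1.1.1.1, app p.1.1.1.1.2 p.1.1.2 ⊆ t ∧ app p.1.1.1.1.2 p.1.2 ⊆ t)) ∧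
      ∀ ζ ∈ p.1.2, app p.2 ζ = {∅} →
        ¬ ∃ t ∈ p.1.1.1.1.1, app p.1.1.1.1.2 ζ ⊆ t ∧ app p.1.1.1.1.2 p.1.2 ⊆ t

open Classical in
theorem u_GA : U KZ.{u} (fun _ _ (a : ((((ZFSet.{u} × ZFSet.{u}) × ZFSet.{u}) × ZFSet.{u}) ×
    ZFSet.{u})) => GA a.1.1.1.1 a.1.1.1.2 a.1.1.2 a.1.2 a.2) := by
  refine U.memrec (C := KZ.{u}) (α := (((ZFSet.{u} × ZFSet.{u}) × ZFSet.{u}) × ZFSet.{u}))
    (F := fun _ _ p => if GStep p then {∅} else ∅)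
    (G := fun _ _ a x => GA a.1.1.1 a.1.1.2 a.1.2 a.2 x) ?_ ?_
  · refine U.ite (C := KZ.{u}) (R := fun _ _ p => GStep p) ?_ ?_ ?_
    · unfold GStep
      apply_rules (transparency := .reducible) (maxDepth := 400) using is_poly
    all_goals apply_rules (transparency := .reducible) (maxDepth := 400) using is_poly
  · intro N A hN a ha x hx
    have key : GPr a.1.1.1 a.1.1.2 a.1.2 a.2 x ↔
        GStep ((a, x), Helper22.SC.gr x (fun x => GA a.1.1.1 a.1.1.2 a.1.2 a.2 x)) := by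
      rw [gPr_iff]
      unfold GStep
      refine and_congr_right fun _ => ?_
      refine forall_congr' fun ζ => forall_congr' fun hζ => ?_
      change _ ↔ (app (Helper22.SC.gr x _) ζ = _ → _)
      rw [app_gr hζ, ga_iff]
    change GA _ _ _ _ _ = ite _ _ _
    unfold GA
    by_cases h : GPr a.1.1.1 a.1.1.2 a.1.2 a.2 x
    · rw [if_pos h, if_pos]
      exact key.1 h
    · rw [if_neg h, if_neg]
      exact fun h' => h (key.2 h')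

theorem U.GA {α : Type (u + 1)} [Ctx.{u} α]
    {f₁ f₂ f₃ f₄ f₅ : Set ZFSet.{u} → Set ZFSet.{u} → α → ZFSet.{u}} (h₁ : U KZ.{u} f₁)
    (h₂ : U KZ.{u} f₂) (h₃ : U KZ.{u} f₃) (h₄ : U KZ.{u} f₄) (h₅ : U KZ.{u} f₅) :
    U KZ.{u} (fun N A a => GP.GA (f₁ N A a) (f₂ N A a) (f₃ N A a) (f₄ N A a) (f₅ N A a)) := by
  have h1 : U KZ.{u} (fun N A a => ((((f₁ N A a, f₂ N A a), f₃ N A a), f₄ N A a), f₅ N A a)) :=
    (((h₁.prodMk h₂).prodMk h₃).prodMk h₄).prodMk h₅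
  exact U.comp (g := fun _ _ (a : ((((ZFSet.{u} × ZFSet.{u}) × ZFSet.{u}) × ZFSet.{u}) ×
      ZFSet.{u})) => GP.GA a.1.1.1.1 a.1.1.1.2 a.1.1.2 a.1.2 a.2)
    (f := fun N A a => ((((f₁ N A a, f₂ N A a), f₃ N A a), f₄ N A a), f₅ N A a)) u_GA h1

attribute [is_poly] U.GA

/-- The set of pairs `(η, ζ)` with `e ζ` in the antichain below `q` deciding `e η`. -/
noncomputable def Sq (Q e μ q : ZFSet.{u}) : ZFSet.{u} :=
  (μ.prod μ).sep (fun z => GA Q e q (pfst z) (psnd z) = {∅})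

theorem mem_Sq {Q e μ q η ζ : ZFSet.{u}} : pair η ζ ∈ Sq Q e μ q ↔
    η ∈ μ ∧ ζ ∈ μ ∧ GPr Q e q η ζ := by
  unfold Sq
  rw [ZFSet.mem_sep, pair_mem_prod, pfst_pair, psnd_pair, ga_iff, and_assoc]

theorem exists_AD {M : Set ZFSet.{u}} {Q : ZFSet.{u}} {m : Ordinal.{u}} (hM : IsZF M ∅)
    (hW : WO M) (hQ : Q ∈ M) (h0 : ∅ ∈ Q) (hm : oz m ∈ M) (hz : ∅ ∈ oz m)
    (hQm : CardLe M Q (oz m)) (hmm : CardLe M ((oz m).prod (oz m)) (oz m)) :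
    ∃ e ∈ M, ∃ hh ∈ M, AD Q (oz m) e hh := by
  obtain ⟨f, hf, _, hf2, hf3⟩ := cardLe_iff.1 hQm
  -- the enumeration
  let eF : ZFSet.{u} → ZFSet.{u} := fun x => ZFSet.sUnion (Q.sep (fun q => app f q = x))
  have heM : gr (oz m) eF ∈ M := by
    have hu : U KZ.{u} (fun _ _ (a : (ZFSet.{u} × ZFSet.{u}) × ZFSet.{u}) =>
        Helper22.SC.gr a.2 (fun x => ZFSet.sUnion (ZFSet.sep (fun q => app a.1.2 q = x) a.1.1))) := by
      apply_rules (transparency := .reducible) (maxDepth := 400) using is_poly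
    have := hu.closed hM (a := ((Q, f), oz m)) (by simp [hQ, hf, hm])
    simpa using this
  set e := gr (oz m) eF with he
  have heq : ∀ q ∈ Q, eF (app f q) = q := by
    intro q hq
    ext z
    simp only [eF]
    rw [ZFSet.mem_sUnion]
    constructor
    · rintro ⟨q', hq', hz⟩
      obtain ⟨h1, h2⟩ := ZFSet.mem_sep.1 hq'
      rwa [hf3 q' h1 q hq h2] at hz
    · intro hz
      exact ⟨q, ZFSet.mem_sep.2 ⟨hq, rfl⟩, hz⟩
  have happ : ∀ x ∈ oz m, app e x = eF x := fun x hx => app_gr hx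
  have heQ : ∀ x ∈ oz m, app e x ∈ Q := by
    intro x hx
    rw [happ x hx]
    by_cases h : ∃ q ∈ Q, app f q = x
    · obtain ⟨q, hq, rfl⟩ := h
      rw [heq q hq]
      exact hq
    · have : eF x = ∅ := by
        ext z
        simp only [eF, ZFSet.mem_sUnion, ZFSet.mem_sep, ZFSet.notMem_empty, iff_false]
        rintro ⟨q, ⟨hq, hq'⟩, _⟩
        exact h ⟨q, hq, hq'⟩
      rw [this]
      exact h0
  have hsurj : ∀ q ∈ Q, ∃ η ∈ oz m, app e η = q := fun q hq =>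
    ⟨app f q, hf2 q hq, by rw [happ _ (hf2 q hq), heq q hq]⟩
  have htr : ∀ ξ ∈ oz m, ∀ ζ ∈ ξ, ζ ∈ oz m := by
    intro ξ hξ ζ hζ
    obtain ⟨a, ha, rfl⟩ := mem_oz.1 hξ
    obtain ⟨b, hb, rfl⟩ := mem_oz.1 hζ
    exact mem_oz.2 ⟨b, hb.trans ha, rfl⟩
  -- maximality of the greedy antichains
  have hmax : ∀ q ∈ Q, ∀ η ∈ oz m, ∀ r ∈ Q, q ⊆ r → ∃ ζ ∈ oz m, GPr Q e q η ζ ∧
      Cp Q r (app e ζ) := by
    intro q hq η hη r hr hqr
    obtain ⟨a, haQ, hra, hadec⟩ : ∃ a ∈ Q, r ⊆ a ∧ (app e η ⊆ a ∨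
        ¬ ∃ t ∈ Q, app e η ⊆ t ∧ a ⊆ t) := by
      by_cases h : ∃ t ∈ Q, app e η ⊆ t ∧ r ⊆ t
      · obtain ⟨t, ht, h1, h2⟩ := h
        exact ⟨t, ht, h2, Or.inl h1⟩
      · exact ⟨r, hr, fun _ h => h, Or.inr h⟩
    obtain ⟨ξ, hξ, rfl⟩ := hsurj a haQ
    by_cases hG : GPr Q e q η ξ
    · exact ⟨ξ, hξ, hG, app e ξ, haQ, hra, fun _ h => h⟩
    · rw [gPr_iff, not_and] at hG
      have hG2 := hG ⟨hqr.trans hra, hadec⟩
      push Not at hG2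
      obtain ⟨ζ, hζ, hζG, t, ht, h1, h2⟩ := hG2
      exact ⟨ζ, htr ξ hξ ζ hζ, hζG, t, ht, hra.trans h2, h1⟩
  -- bijections
  have hSqM : ∀ q ∈ M, Sq Q e (oz m) q ∈ M := by
    intro q hq
    have hu : U KZ.{u} (fun _ _ (a : ((ZFSet.{u} × ZFSet.{u}) × ZFSet.{u}) × ZFSet.{u}) =>
        ZFSet.sep (fun z => GP.GA a.1.1.1 a.1.1.2 a.2 (pfst z) (psnd z) = {∅})
          (a.1.2.prod a.1.2)) := by
      apply_rules (transparency := .reducible) (maxDepth := 400) using is_poly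
    have := hu.closed hM (a := (((Q, e), oz m), q)) (by simp [hQ, heM, hm, hq])
    simpa [Sq] using this
  have hord : ∀ (S : ZFSet.{u}), S ⊆ oz m → ∀ x ∈ S, x.IsOrdinal := by
    intro S hS x hx
    obtain ⟨a, _, rfl⟩ := mem_oz.1 (hS hx)
    exact isOrdinal_toZFSet _
  have hbij : ∀ q ∈ Q, ∃ h ∈ M, IsFunc (oz m) (Sq Q e (oz m) q) h ∧
      (∀ y ∈ Sq Q e (oz m) q, ∃ x ∈ oz m, pair x y ∈ h) ∧
      ∀ x x' y, pair x y ∈ h → pair x' y ∈ h → x = x' := by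
    intro q hq
    have hqM := hM.trans Q hQ q hq
    have hS := hSqM q hqM
    refine Pool.Agent.Helper16.GP.st_sb M ∅ hM _ hm _ hS ?_ ?_
    · -- `η ↦ (η, least ζ)`
      have hg : gr (oz m) (fun η => pair η (lst ((oz m).sep (fun ζ => GA Q e q η ζ = {∅})))) ∈
          M := by
        have hu : U KZ.{u} (fun _ _ (a : ((ZFSet.{u} × ZFSet.{u}) × ZFSet.{u}) × ZFSet.{u}) =>
            Helper22.SC.gr a.1.2 (fun η => pair η (Helper22.SC.lst (ZFSet.sep (fun ζ =>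
              GP.GA a.1.1.1 a.1.1.2 a.2 η ζ = {∅}) a.1.2)))) := by
          apply_rules (transparency := .reducible) (maxDepth := 400) using is_poly
        have := hu.closed hM (a := (((Q, e), oz m), q)) (by simp [hQ, heM, hm, hqM])
        simpa using this
      refine cardLe_of_gr hg (fun η hη => ?_) (fun η _ η' _ h => (pair_inj.1 h).1)
      obtain ⟨ζ, hζ, hG, _⟩ := hmax q hq η hη q hq (fun _ h => h)
      have hne : (oz m).sep (fun ζ => GA Q e q η ζ = {∅}) ≠ ∅ := by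
        intro h
        have : ζ ∈ (oz m).sep (fun ζ => GA Q e q η ζ = {∅}) :=
          ZFSet.mem_sep.2 ⟨hζ, ga_iff.2 hG⟩
        rw [h] at this
        exact ZFSet.notMem_empty _ this
      have hl := lst_mem (hord _ (fun x hx => (ZFSet.mem_sep.1 hx).1)) hne
      obtain ⟨hl1, hl2⟩ := ZFSet.mem_sep.1 hl.1
      exact mem_Sq.2 ⟨hη, hl1, ga_iff.1 hl2⟩
    · exact cardLe_trans hM hS
        (cardLe_subset hM hS (fun z hz => (ZFSet.mem_sep.1 hz).1)) hmm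
  -- choice of the bijections
  have hDM : Helper66.SC.Pow M ((oz m).prod ((oz m).prod (oz m))) ∈ M :=
    Pow_mem hM (prod_mem hM hm (prod_mem hM hm hm))
  obtain ⟨E, hE, hE'⟩ := exists_chooses hM hW hDM
  let BB : ZFSet.{u} → ZFSet.{u} := fun q =>
    (Helper66.SC.Pow M ((oz m).prod ((oz m).prod (oz m)))).sep (fun h =>
      IsFunc (oz m) (Sq Q e (oz m) q) h ∧ (∀ y ∈ Sq Q e (oz m) q, ∃ x ∈ oz m, pair x y ∈ h) ∧
      ∀ x ∈ oz m, ∀ x' ∈ oz m, ∀ y ∈ Sq Q e (oz m) q, pair x y ∈ h → pair x' y ∈ h → x = x')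
  have hBB : ∀ q ∈ Q, argmin E (BB q) ∈ BB q := by
    intro q hq
    refine hE' _ (fun x hx => (ZFSet.mem_sep.1 hx).1) ?_
    obtain ⟨h, hhM, h1, h2, h3⟩ := hbij q hq
    have : h ∈ BB q := by
      refine ZFSet.mem_sep.2 ⟨mem_Pow.2 ⟨hhM, fun z hz => ?_⟩, h1, h2,
        fun x _ x' _ y _ h4 h5 => h3 x x' y h4 h5⟩
      obtain ⟨a, ha, b, hb, rfl⟩ := ZFSet.mem_prod.1 (h1.1 hz)
      exact pair_mem_prod.2 ⟨ha, (ZFSet.mem_sep.1 hb).1⟩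
    intro hc
    rw [hc] at this
    exact ZFSet.notMem_empty _ this
  have hhM : gr Q (fun q => argmin E (BB q)) ∈ M := by
    have hu : U KZ.{u} (fun _ _ (a : (((ZFSet.{u} × ZFSet.{u}) × ZFSet.{u}) × ZFSet.{u}) ×
        ZFSet.{u}) => Helper22.SC.gr a.1.1.1.1 (fun q => Helper22.SC.argmin a.1.2 (ZFSet.sep (fun h =>
          IsFunc a.1.1.2 (ZFSet.sep (fun z => GP.GA a.1.1.1.1 a.1.1.1.2 q (pfst z) (psnd z) =
            {∅}) (a.1.1.2.prod a.1.1.2)) h ∧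
          (∀ y ∈ ZFSet.sep (fun z => GP.GA a.1.1.1.1 a.1.1.1.2 q (pfst z) (psnd z) =
            {∅}) (a.1.1.2.prod a.1.1.2), ∃ x ∈ a.1.1.2, pair x y ∈ h) ∧
          ∀ x ∈ a.1.1.2, ∀ x' ∈ a.1.1.2, ∀ y ∈ ZFSet.sep (fun z =>
            GP.GA a.1.1.1.1 a.1.1.1.2 q (pfst z) (psnd z) =
            {∅}) (a.1.1.2.prod a.1.1.2), pair x y ∈ h → pair x' y ∈ h → x = x') a.2))) := by
      apply_rules (transparency := .reducible) (maxDepth := 400) using is_poly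
    have := hu.closed hM (a := ((((Q, e), oz m), E),
      Helper66.SC.Pow M ((oz m).prod ((oz m).prod (oz m))))) (by
        simp only [in_prod, in_zfset]
        exact ⟨⟨⟨⟨hQ, heM⟩, hm⟩, hE⟩, hDM⟩)
    simpa [BB, Sq] using this
  refine ⟨e, heM, gr Q (fun q => argmin E (BB q)), hhM, ?_⟩
  have hfun : ∀ q ∈ Q, IsFunc (oz m) (Sq Q e (oz m) q)
      (app (gr Q (fun q => argmin E (BB q))) q) ∧
      (∀ y ∈ Sq Q e (oz m) q, ∃ x ∈ oz m, pair x y ∈ app (gr Q (fun q => argmin E (BB q))) q) ∧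
      ∀ x ∈ oz m, ∀ x' ∈ oz m, ∀ y ∈ Sq Q e (oz m) q,
        pair x y ∈ app (gr Q (fun q => argmin E (BB q))) q →
        pair x' y ∈ app (gr Q (fun q => argmin E (BB q))) q → x = x' := by
    intro q hq
    rw [app_gr hq]
    exact (ZFSet.mem_sep.1 (hBB q hq)).2
  refine ⟨h0, hz, ?_, ?_, ?_, ?_, hsurj⟩
  · intro q hq y hy
    obtain ⟨h1, _, _⟩ := hfun q hq
    have h4 := (app_mem_of_isFunc h1 hy).1
    obtain ⟨η, hη, ζ, hζ, h5⟩ := ZFSet.mem_prod.1 (ZFSet.mem_sep.1 h4).1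
    rw [h5] at h4
    obtain ⟨_, _, hG⟩ := mem_Sq.1 h4
    rw [gPr_iff] at hG
    exact ⟨η, hη, ζ, hζ, h5, heQ ζ hζ, hG.1.1, hG.1.2⟩
  · intro q hq y hy y' hy' h
    obtain ⟨h1, _, h3⟩ := hfun q hq
    have h4 := app_mem_of_isFunc h1 hy
    have h5 := app_mem_of_isFunc h1 hy'
    rw [h] at h4
    exact h3 y hy y' hy' _ h4.1 h4.2 h5.2
  · intro q hq y hy y' hy' η ζ ζ' h4 h5 hc
    obtain ⟨h1, _, _⟩ := hfun q hq
    have h6 := (app_mem_of_isFunc h1 hy).1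
    have h7 := (app_mem_of_isFunc h1 hy').1
    rw [h4] at h6
    rw [h5] at h7
    obtain ⟨_, hζ, hG⟩ := mem_Sq.1 h6
    obtain ⟨_, hζ', hG'⟩ := mem_Sq.1 h7
    obtain ⟨a, ha, rfl⟩ := mem_oz.1 hζ
    obtain ⟨b, hb, rfl⟩ := mem_oz.1 hζ'
    rcases lt_trichotomy a b with hab | hab | hab
    · exfalso
      exact (gPr_iff.1 hG').2 _ (mem_oz.2 ⟨a, hab, rfl⟩) hG hc
    · rw [hab]
    · exfalso
      refine (gPr_iff.1 hG).2 _ (mem_oz.2 ⟨b, hab, rfl⟩) hG' ?_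
      obtain ⟨t, ht, h8, h9⟩ := hc
      exact ⟨t, ht, h9, h8⟩
  · intro q hq η hη r hr hqr
    obtain ⟨h1, h2, _⟩ := hfun q hq
    obtain ⟨ζ, hζ, hG, hc⟩ := hmax q hq η hη r hr hqr
    obtain ⟨y, hy, hyp⟩ := h2 (pair η ζ) (mem_Sq.2 ⟨hη, hζ, hG⟩)
    refine ⟨y, hy, ζ, ?_, hc⟩
    have h4 := app_mem_of_isFunc h1 hy
    exact (h1.2 y hy).unique h4.2 hyp

/-- ABS. -/
theorem st_ABS : ST_ABS.{u} := by
  intro M Q K g m hM hQ hK hm hGd hQm hg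
  have h0 : ∅ ∈ Q := hK.sub hK.top
  have hz : ∅ ∈ oz m := by
    refine mem_oz.2 ⟨0, lt_of_lt_of_le Ordinal.omega0_pos hGd.1, ?_⟩
    simp
  obtain ⟨e, he, hh, hhh, h⟩ := exists_AD hM.zf hM.wo hQ h0 hm hz hQm hGd.2.1
  exact abs_main hM hQ hm he hhh h hK hg

end Pool.Agent.Helper66.GP
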