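import Pool.Agent.Helper66.GP.PP

/-! # Absorption, part b: the generic branch through a tree of antichains -/

universe u

namespace Pool.Agent.Helper66.GP

open ZFSet Pool.Agent.Helper66.SC Pool.Agent.Helper22.SC

/-- Compatibility in `Q`. -/
def Cp (Q r s : ZFSet.{u}) : Prop := ∃ t ∈ Q, r ⊆ t ∧ s ⊆ t

/-- The combinatorial data for the absorption of `Q` by the collapse of `μ`. -/
structure AD (Q μ e hh : ZFSet.{u}) : Prop where
  top : ∅ ∈ Q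
  z : ∅ ∈ μ
  val : ∀ q ∈ Q, ∀ y ∈ μ, ∃ η ∈ μ, ∃ ζ ∈ μ, app (app hh q) y = pair η ζ ∧ app e ζ ∈ Q ∧
    q ⊆ app e ζ ∧ (app e η ⊆ app e ζ ∨ ¬ Cp Q (app e η) (app e ζ))
  inj : ∀ q ∈ Q, ∀ y ∈ μ, ∀ y' ∈ μ, app (app hh q) y = app (app hh q) y' → y = y'
  inc : ∀ q ∈ Q, ∀ y ∈ μ, ∀ y' ∈ μ, ∀ η ζ ζ', app (app hh q) y = pair η ζ →
    app (app hh q) y' = pair η ζ' → Cp Q (app e ζ) (app e ζ') → ζ = ζ'
  max : ∀ q ∈ Q, ∀ η ∈ μ, ∀ r ∈ Q, q ⊆ r → ∃ y ∈ μ, ∃ ζ, app (app hh q) y = pair η ζ ∧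
    Cp Q r (app e ζ)
  surj : ∀ q ∈ Q, ∃ η ∈ μ, app e η = q

/-- The first coordinates along `f`. -/
noncomputable def Rr (hh e : ZFSet.{u}) (f : ℕ → ZFSet.{u}) : ℕ → ZFSet.{u}
  | 0 => ∅
  | n + 1 => app e (psnd (app (app hh (Rr hh e f n)) (f n)))

/-- The second coordinates along `f`. -/
noncomputable def Ss (hh e : ZFSet.{u}) (f : ℕ → ZFSet.{u}) (n : ℕ) : ZFSet.{u} :=
  pfst (app (app hh (Rr hh e f n)) (f n))

theorem Rr_congr {hh e : ZFSet.{u}} {f f' : ℕ → ZFSet.{u}} {n : ℕ} (h : ∀ i < n, f i = f' i) :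
    Rr hh e f n = Rr hh e f' n := by
  induction n with
  | zero => rfl
  | succ n ih =>
    rw [Rr, Rr, ih (fun i hi => h i (by omega)), h n (by omega)]

theorem Ss_congr {hh e : ZFSet.{u}} {f f' : ℕ → ZFSet.{u}} {n : ℕ} (h : ∀ i ≤ n, f i = f' i) :
    Ss hh e f n = Ss hh e f' n := by
  rw [Ss, Ss, Rr_congr (fun i hi => h i (by omega)), h n le_rfl]

section
variable {Q μ e hh : ZFSet.{u}} (h : AD Q μ e hh)
include h

theorem Rr_mem {f : ℕ → ZFSet.{u}} (hf : ∀ i, f i ∈ μ) (n : ℕ) : Rr hh e f n ∈ Q := by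
  induction n with
  | zero => exact h.top
  | succ n ih =>
    obtain ⟨η, _, ζ, _, h1, h2, _⟩ := h.val _ ih _ (hf n)
    rw [Rr, h1, psnd_pair]
    exact h2

theorem Rr_step {f : ℕ → ZFSet.{u}} (hf : ∀ i, f i ∈ μ) (n : ℕ) :
    Ss hh e f n ∈ μ ∧ ∃ ζ ∈ μ, app (app hh (Rr hh e f n)) (f n) = pair (Ss hh e f n) ζ ∧
      Rr hh e f (n + 1) = app e ζ ∧ Rr hh e f n ⊆ Rr hh e f (n + 1) ∧
      (app e (Ss hh e f n) ⊆ Rr hh e f (n + 1) ∨
        ¬ Cp Q (app e (Ss hh e f n)) (Rr hh e f (n + 1))) := by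
  obtain ⟨η, hη, ζ, hζ, h1, h2, h3, h4⟩ := h.val _ (Rr_mem h hf n) _ (hf n)
  have e1 : Ss hh e f n = η := by rw [Ss, h1, pfst_pair]
  have e2 : Rr hh e f (n + 1) = app e ζ := by rw [Rr, h1, psnd_pair]
  rw [e1, e2]
  exact ⟨hη, ζ, hζ, h1, rfl, h3, h4⟩

theorem Rr_mono {f : ℕ → ZFSet.{u}} (hf : ∀ i, f i ∈ μ) {n k : ℕ} (hnk : n ≤ k) :
    Rr hh e f n ⊆ Rr hh e f k := by
  induction k, hnk using Nat.le_induction with
  | base => exact fun _ hx => hx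
  | succ k _ ih => exact ih.trans (Rr_step h hf k).2.choose_spec.2.2.2.1

/-- Existence of branches with prescribed second coordinates through a good family. -/
theorem exists_branch (Good : ZFSet.{u} → Prop) (h0 : Good ∅)
    (h1 : ∀ q ∈ Q, Good q → ∀ η ∈ μ, ∃ y ∈ μ, ∃ ζ, app (app hh q) y = pair η ζ ∧
      Good (app e ζ)) (φ : ℕ → ZFSet.{u}) (hφ : ∀ i, φ i ∈ μ) :
    ∃ t : ℕ → ZFSet.{u}, ∀ i, t i ∈ μ ∧ Good (Rr hh e t i) ∧ Ss hh e t i = φ i := by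
  classical
  let st : ZFSet.{u} → ZFSet.{u} → ZFSet.{u} := fun q η =>
    if hq : ∃ y ∈ μ, ∃ ζ, app (app hh q) y = pair η ζ ∧ Good (app e ζ) then hq.choose else ∅
  have hst : ∀ q ∈ Q, Good q → ∀ η ∈ μ, st q η ∈ μ ∧ ∃ ζ, app (app hh q) (st q η) = pair η ζ ∧
      Good (app e ζ) := by
    intro q hq hg η hη
    have hq' := h1 q hq hg η hη
    simp only [st]
    rw [dif_pos hq']
    exact hq'.choose_spec
  let qn : ℕ → ZFSet.{u} := fun n => Nat.rec ∅ (fun n q =>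
    app e (psnd (app (app hh q) (st q (φ n))))) n
  let t : ℕ → ZFSet.{u} := fun n => st (qn n) (φ n)
  have hqt : ∀ n, Rr hh e t n = qn n := by
    intro n
    induction n with
    | zero => rfl
    | succ n ih => rw [Rr, ih]
  have hgood : ∀ n, qn n ∈ Q ∧ Good (qn n) := by
    intro n
    induction n with
    | zero => exact ⟨h.top, h0⟩
    | succ n ih =>
      obtain ⟨h2, ζ, h3, h4⟩ := hst _ ih.1 ih.2 _ (hφ n)
      have e1 : qn (n + 1) = app e ζ := by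
        change app e (psnd (app (app hh (qn n)) (st (qn n) (φ n)))) = _
        rw [h3, psnd_pair]
      rw [e1]
      refine ⟨?_, h4⟩
      obtain ⟨η', _, ζ', _, h5, h6, _⟩ := h.val _ ih.1 _ h2
      rw [h3] at h5
      rw [(pair_inj.1 h5).2]
      exact h6
  refine ⟨t, fun i => ?_⟩
  obtain ⟨h2, ζ, h3, _⟩ := hst _ (hgood i).1 (hgood i).2 _ (hφ i)
  refine ⟨h2, by rw [hqt]; exact (hgood i).2, ?_⟩
  rw [Ss, hqt, h3, pfst_pair]

/-- Branches through a filter are determined by their second coordinates. -/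
theorem branch_unique {K : ZFSet.{u}} (hK : K ⊆ Q)
    (hdir : ∀ p ∈ K, ∀ q ∈ K, ∃ r ∈ K, p ⊆ r ∧ q ⊆ r) {t f : ℕ → ZFSet.{u}}
    (ht : ∀ i, t i ∈ μ) (hf : ∀ i, f i ∈ μ) {n : ℕ} (htK : ∀ i ≤ n, Rr hh e t i ∈ K)
    (hfK : ∀ i ≤ n, Rr hh e f i ∈ K) (hS : ∀ i < n, Ss hh e t i = Ss hh e f i) :
    ∀ i < n, t i = f i := by
  intro i
  induction i using Nat.strong_induction_on with
  | _ i ih =>
    intro hi
    have hR : Rr hh e t i = Rr hh e f i := Rr_congr (fun j hj => ih j hj (by omega))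
    obtain ⟨_, ζ, _, h1, h2, _, _⟩ := Rr_step h ht i
    obtain ⟨_, ζ', _, h1', h2', _, _⟩ := Rr_step h hf i
    have hq := Rr_mem h hf i
    rw [hR, hS i hi] at h1
    have hc : Cp Q (app e ζ) (app e ζ') := by
      rw [← h2, ← h2']
      obtain ⟨r, hr, h3, h4⟩ := hdir _ (htK (i + 1) (by omega)) _ (hfK (i + 1) (by omega))
      exact ⟨r, hK hr, h3, h4⟩
    have := h.inc _ hq _ (ht i) _ (hf i) _ _ _ h1 h1' hc
    subst this
    exact h.inj _ hq _ (ht i) _ (hf i) (h1.trans h1'.symm)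

end

end Pool.Agent.Helper66.GP
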