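import Pool.Agent.Helper66.GP.ABSb
import Pool.Agent.Helper22.GP.FN

/-! # Absorption, part c: generic filters for the collapse of one ordinal -/

universe u

namespace Pool.Agent.Helper66.GP

open ZFSet Pool.Agent.Helper66.SC Pool.Agent.Helper22.SC
open Pool.Agent.Helper22.GP (mem_oz mem_TC mem_Col Col_mem empty_mem_Col oz_mem_of_le)

theorem mem_C1 {m : Ordinal.{u}} {p : ZFSet.{u}} : p ∈ Col m (m + 1) ↔
    (∀ t ∈ p, ∃ n : ℕ, ∃ y ∈ oz m, t = pair (pair (oz m) (nat n)) y) ∧ {x | x ∈ p}.Finite ∧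
      ∀ x y z, pair x y ∈ p → pair x z ∈ p → y = z := by
  rw [mem_Col]
  refine and_congr_left fun _ => ?_
  constructor
  · intro h t ht
    obtain ⟨α, ξ, n, h1, h2, h3, rfl⟩ := mem_TC.1 (h ht)
    have h4 : α = m := le_antisymm (Order.lt_succ_iff.1 (by simpa using h2)) h1
    subst h4
    exact ⟨n, oz ξ, mem_oz.2 ⟨ξ, h3, rfl⟩, rfl⟩
  · intro h t ht
    obtain ⟨n, y, hy, rfl⟩ := h t ht
    obtain ⟨ξ, hξ, rfl⟩ := mem_oz.1 hy
    exact mem_TC.2 ⟨m, ξ, n, le_rfl, by simp, hξ, rfl⟩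

/-- The condition given by the first `n` values of `f`. -/
noncomputable def cnd (m : Ordinal.{u}) (f : ℕ → ZFSet.{u}) (n : ℕ) : ZFSet.{u} :=
  img (nat n) (fun x => pair (pair (oz m) x) (f (toNat x)))

theorem mem_cnd {m : Ordinal.{u}} {f : ℕ → ZFSet.{u}} {n : ℕ} {t : ZFSet.{u}} :
    t ∈ cnd m f n ↔ ∃ i < n, t = pair (pair (oz m) (nat i)) (f i) := by
  unfold cnd
  rw [mem_img]
  constructor
  · rintro ⟨x, hx, rfl⟩
    obtain ⟨i, hi, rfl⟩ := mem_nat.1 hx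
    exact ⟨i, hi, by rw [toNat_nat]⟩
  · rintro ⟨i, hi, rfl⟩
    exact ⟨nat i, mem_nat.2 ⟨i, hi, rfl⟩, by rw [toNat_nat]⟩

theorem cnd_mem {m : Ordinal.{u}} {f : ℕ → ZFSet.{u}} {n : ℕ} (hf : ∀ i, f i ∈ oz m) :
    cnd m f n ∈ Col m (m + 1) := by
  refine mem_C1.2 ⟨?_, ?_, ?_⟩
  · intro t ht
    obtain ⟨i, _, rfl⟩ := mem_cnd.1 ht
    exact ⟨i, f i, hf i, rfl⟩
  · have : {x : ZFSet.{u} | x ∈ cnd m f n} ⊆
        (fun i : ℕ => pair (pair (oz m) (nat i)) (f i)) '' (Set.Iio n) := by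
      intro t ht
      obtain ⟨i, hi, rfl⟩ := mem_cnd.1 ht
      exact ⟨i, hi, rfl⟩
    exact ((Set.finite_Iio n).image _).subset this
  · intro x y z h1 h2
    obtain ⟨i, _, h1⟩ := mem_cnd.1 h1
    obtain ⟨j, _, h2⟩ := mem_cnd.1 h2
    have e1 := pair_inj.1 h1
    have e2 := pair_inj.1 h2
    have e3 := e1.1.symm.trans e2.1
    have e4 := nat_inj.1 (pair_inj.1 e3).2
    rw [e1.2, e2.2, e4]

theorem cnd_mono {m : Ordinal.{u}} {f : ℕ → ZFSet.{u}} {n k : ℕ} (h : n ≤ k) :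
    cnd m f n ⊆ cnd m f k := by
  intro t ht
  obtain ⟨i, hi, rfl⟩ := mem_cnd.1 ht
  exact mem_cnd.2 ⟨i, hi.trans_le h, rfl⟩

/-- The filter given by a function. -/
noncomputable def gf (m : Ordinal.{u}) (φ : ℕ → ZFSet.{u}) : ZFSet.{u} :=
  (Col m (m + 1)).sep (fun p => ∀ (n : ℕ) y, pair (pair (oz m) (nat n)) y ∈ p → φ n = y)

theorem mem_gf {m : Ordinal.{u}} {φ : ℕ → ZFSet.{u}} {p : ZFSet.{u}} : p ∈ gf m φ ↔
    p ∈ Col m (m + 1) ∧ ∀ (n : ℕ) y, pair (pair (oz m) (nat n)) y ∈ p → φ n = y := by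
  unfold gf
  rw [ZFSet.mem_sep]

theorem cnd_mem_gf {m : Ordinal.{u}} {f : ℕ → ZFSet.{u}} {n : ℕ} (hf : ∀ i, f i ∈ oz m) :
    cnd m f n ∈ gf m f := by
  refine mem_gf.2 ⟨cnd_mem hf, fun k y hy => ?_⟩
  obtain ⟨i, _, h⟩ := mem_cnd.1 hy
  have h1 := pair_inj.1 h
  rw [nat_inj.1 (pair_inj.1 h1.1).2, h1.2]

/-- Every condition is contained in one with an initial segment as domain. -/
theorem exists_bound {m : Ordinal.{u}} {p : ZFSet.{u}} (hp : p ∈ Col m (m + 1)) :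
    ∃ n : ℕ, ∀ i y, pair (pair (oz m) (nat i)) y ∈ p → i < n := by
  obtain ⟨h1, h2, _⟩ := mem_C1.1 hp
  have h3 : (toNat '' ((fun t => psnd (pfst t)) '' {x | x ∈ p})).Finite :=
    (h2.image _).image _
  obtain ⟨n, hn⟩ := h3.bddAbove
  refine ⟨n + 1, fun i y hy => Nat.lt_succ_of_le (hn ⟨nat i, ⟨_, hy, ?_⟩, toNat_nat i⟩)⟩
  simp

theorem gf_generic {N : Set ZFSet.{u}} {m : Ordinal.{u}} {φ : ℕ → ZFSet.{u}}
    (hD : ∀ D ∈ N, D ⊆ Col m (m + 1) → (∀ p ∈ Col m (m + 1), ∃ q ∈ D, p ⊆ q) →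
      ∃ p ∈ gf m φ, p ∈ D) : IsGeneric N (Col m (m + 1)) (gf m φ) where
  sub := fun p hp => (mem_gf.1 hp).1
  top := mem_gf.2 ⟨empty_mem_Col _ _, fun n y h => absurd h (ZFSet.notMem_empty _)⟩
  up := fun p hp q hq hqp => mem_gf.2 ⟨hq, fun n y h => (mem_gf.1 hp).2 n y (hqp h)⟩
  dir := by
    intro p hp q hq
    obtain ⟨hp1, hp2⟩ := mem_gf.1 hp
    obtain ⟨hq1, hq2⟩ := mem_gf.1 hq
    obtain ⟨p1, p2, p3⟩ := mem_C1.1 hp1
    obtain ⟨q1, q2, q3⟩ := mem_C1.1 hq1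
    refine ⟨p ∪ q, mem_gf.2 ⟨mem_C1.2 ⟨?_, ?_, ?_⟩, ?_⟩, fun x hx => ZFSet.mem_union.2
      (Or.inl hx), fun x hx => ZFSet.mem_union.2 (Or.inr hx)⟩
    · intro t ht
      rcases ZFSet.mem_union.1 ht with h | h
      · exact p1 t h
      · exact q1 t h
    · have : {x | x ∈ p ∪ q} = {x | x ∈ p} ∪ {x | x ∈ q} := by
        ext x
        simp
      rw [this]
      exact p2.union q2
    · have key : ∀ x y, pair x y ∈ p ∪ q → ∃ n : ℕ, x = pair (oz m) (nat n) ∧ φ n = y := by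
        intro x y h
        rcases ZFSet.mem_union.1 h with h | h
        · obtain ⟨n, y', _, h'⟩ := p1 _ h
          obtain ⟨rfl, rfl⟩ := pair_inj.1 h'
          exact ⟨n, rfl, hp2 n _ h⟩
        · obtain ⟨n, y', _, h'⟩ := q1 _ h
          obtain ⟨rfl, rfl⟩ := pair_inj.1 h'
          exact ⟨n, rfl, hq2 n _ h⟩
      intro x y z h1 h2
      obtain ⟨n, e1, e2⟩ := key x y h1
      obtain ⟨k, e3, e4⟩ := key x z h2
      rw [e1] at e3
      have := nat_inj.1 (pair_inj.1 e3).2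
      rw [← e2, ← e4, this]
    · intro n y h
      rcases ZFSet.mem_union.1 h with h | h
      · exact hp2 n y h
      · exact hq2 n y h
  meets := hD

theorem oz_succ_mem {N A : Set ZFSet.{u}} (hN : IsZF N A) {m : Ordinal.{u}} (hm : oz m ∈ N) :
    oz (m + 1) ∈ N := by
  have h : U KZ.{u} (fun _ _ (x : ZFSet.{u}) => Insert.insert x x) := by
    apply_rules (transparency := .reducible) (maxDepth := 400) using is_poly
  have := h.closed hN (a := oz m) (by simpa using hm)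
  rw [in_zfset] at this
  rwa [oz, Ordinal.toZFSet_add_one]

theorem gen_fun {N : Set ZFSet.{u}} {m : Ordinal.{u}} {g : ZFSet.{u}} (hN : IsZF N ∅)
    (hm : oz m ∈ N) (h0 : ∅ ∈ oz m) (hg : IsGeneric N (Col m (m + 1)) g) :
    ∃ φ : ℕ → ZFSet.{u}, (∀ i, φ i ∈ oz m) ∧ g = gf m φ ∧
      ∀ i, ∃ p ∈ g, pair (pair (oz m) (nat i)) (φ i) ∈ p := by
  have hm1 : oz (m + 1) ∈ N := oz_succ_mem hN hm
  have hC : Col m (m + 1) ∈ N := Col_mem hN hm hm1
  have h1 : ∀ i : ℕ, ∃ y ∈ oz m, ∃ p ∈ g, pair (pair (oz m) (nat i)) y ∈ p := by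
    intro i
    have hD : ZFSet.sep (fun p => ∃ y ∈ oz m, pair (pair (oz m) (nat i)) y ∈ p)
        (Col m (m + 1)) ∈ N := by
      have h : U KZ.{u} (fun _ _ (a : (ZFSet.{u} × ZFSet.{u}) × ZFSet.{u}) =>
          ZFSet.sep (fun p => ∃ y ∈ a.1.2, pair (pair a.1.2 a.2) y ∈ p) a.1.1) := by
        apply_rules (transparency := .reducible) (maxDepth := 400) using is_poly
      have := h.closed hN (a := ((Col m (m + 1), oz m), nat i)) (by
        simp [hC, hm, hN.trans _ hN.omega _ (nat_mem_omega i)])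
      simpa using this
    obtain ⟨p, hp, hp'⟩ := hg.meets _ hD (fun p hp => (ZFSet.mem_sep.1 hp).1) (by
      intro p hp
      by_cases hi : ∃ y, pair (pair (oz m) (nat i)) y ∈ p
      · obtain ⟨y, hy⟩ := hi
        obtain ⟨n, y', hy', e⟩ := (mem_C1.1 hp).1 _ hy
        rw [(pair_inj.1 e).2] at hy
        exact ⟨p, ZFSet.mem_sep.2 ⟨hp, y', hy', hy⟩, fun _ h => h⟩
      · obtain ⟨p1, p2, p3⟩ := mem_C1.1 hp
        refine ⟨insert (pair (pair (oz m) (nat i)) ∅) p, ZFSet.mem_sep.2 ⟨mem_C1.2 ⟨?_, ?_, ?_⟩,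
          ∅, h0, ZFSet.mem_insert_iff.2 (Or.inl rfl)⟩, fun x hx =>
            ZFSet.mem_insert_iff.2 (Or.inr hx)⟩
        · intro t ht
          rcases ZFSet.mem_insert_iff.1 ht with rfl | h
          · exact ⟨i, ∅, h0, rfl⟩
          · exact p1 t h
        · have : {x | x ∈ insert (pair (pair (oz m) (nat i)) ∅) p} =
              insert (pair (pair (oz m) (nat i)) ∅) {x | x ∈ p} := by
            ext x
            simp
          rw [this]
          exact p2.insert _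
        · intro x y z hy hz
          rcases ZFSet.mem_insert_iff.1 hy with hy | hy <;>
            rcases ZFSet.mem_insert_iff.1 hz with hz | hz
          · rw [(pair_inj.1 hy).2, (pair_inj.1 hz).2]
          · exact absurd ⟨z, (pair_inj.1 hy).1 ▸ hz⟩ hi
          · exact absurd ⟨y, (pair_inj.1 hz).1 ▸ hy⟩ hi
          · exact p3 x y z hy hz)
    obtain ⟨_, y, hy, h⟩ := ZFSet.mem_sep.1 hp'
    exact ⟨y, hy, p, hp, h⟩
  choose φ hφ p hp hpφ using h1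
  refine ⟨φ, hφ, ?_, fun i => ⟨p i, hp i, hpφ i⟩⟩
  ext q
  rw [mem_gf]
  constructor
  · intro hq
    refine ⟨hg.sub hq, fun n y hy => ?_⟩
    obtain ⟨r, hr, h1, h2⟩ := hg.dir q hq (p n) (hp n)
    exact (mem_C1.1 (hg.sub hr)).2.2 _ _ _ (h2 (hpφ n)) (h1 hy)
  · rintro ⟨hq, hq'⟩
    obtain ⟨n, hn⟩ := exists_bound hq
    -- a condition in `g` containing the first `n` values
    have h2 : ∀ k : ℕ, ∃ r ∈ g, ∀ i < k, pair (pair (oz m) (nat i)) (φ i) ∈ r := by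
      intro k
      induction k with
      | zero => exact ⟨∅, hg.top, fun i hi => absurd hi (by omega)⟩
      | succ k ih =>
        obtain ⟨r, hr, h⟩ := ih
        obtain ⟨s, hs, h3, h4⟩ := hg.dir r hr (p k) (hp k)
        refine ⟨s, hs, fun i hi => ?_⟩
        rcases Nat.lt_succ_iff_lt_or_eq.1 hi with hi | rfl
        · exact h3 (h i hi)
        · exact h4 (hpφ i)
    obtain ⟨r, hr, h⟩ := h2 n
    refine hg.up r hr q hq (fun t ht => ?_)
    obtain ⟨i, y, _, rfl⟩ := (mem_C1.1 hq).1 t ht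
    rw [← hq' i y ht]
    exact h i (hn i y ht)

end Pool.Agent.Helper66.GP
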