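import Pool.Agent.Helper66.GP.ABSc

/-! # Absorption, part d: the main argument -/

universe u

namespace Pool.Agent.Helper66.GP

open ZFSet Pool.Agent.Helper66.SC Pool.Agent.Helper22.SC
open Pool.Agent.Helper22.GP (mem_oz mem_TC mem_Col Col_mem empty_mem_Col oz_mem_of_le)

theorem app_none {f x : ZFSet.{u}} (h : ∀ y, pair x y ∉ f) : app f x = ∅ := by
  unfold app
  ext z
  simp only [ZFSet.mem_sUnion, ZFSet.mem_sep, ZFSet.notMem_empty, iff_false, not_exists, not_and]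
  rintro w ⟨_, hw⟩
  exact absurd hw (h w)

theorem app_cond {m : Ordinal.{u}} (h0 : ∅ ∈ oz m) {c : ZFSet.{u}} (hc : c ∈ Col m (m + 1)) :
    (∀ x, app c x ∈ oz m) ∧ ∀ x y, pair x y ∈ c → app c x = y := by
  obtain ⟨h1, _, h3⟩ := mem_C1.1 hc
  have h4 : ∀ x y, pair x y ∈ c → app c x = y := fun x y hy =>
    app_eq hy (fun z hz => h3 x z y hz hy)
  refine ⟨fun x => ?_, h4⟩
  by_cases hx : ∃ y, pair x y ∈ c
  · obtain ⟨y, hy⟩ := hx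
    obtain ⟨n, y', hy', e⟩ := h1 _ hy
    rw [h4 x y hy, (pair_inj.1 e).2]
    exact hy'
  · rw [app_none (fun y hy => hx ⟨y, hy⟩)]
    exact h0

open Classical in
/-- The set version of `Rr`. -/
noncomputable def RQ (hh e μ F x : ZFSet.{u}) : ZFSet.{u} :=
  if x ∈ ZFSet.omega then Rr hh e (fun i => app F (pair μ (nat i))) (toNat x) else ∅

theorem RQ_nat (hh e μ F : ZFSet.{u}) (n : ℕ) :
    RQ hh e μ F (nat n) = Rr hh e (fun i => app F (pair μ (nat i))) n := by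
  unfold RQ
  rw [if_pos (nat_mem_omega n), toNat_nat]

theorem u_RQ : U KZ.{u} (fun _ _ (a : (((ZFSet.{u} × ZFSet.{u}) × ZFSet.{u}) × ZFSet.{u}) ×
    ZFSet.{u}) => RQ a.1.1.1.1 a.1.1.1.2 a.1.1.2 a.1.2 a.2) := by
  unfold RQ
  exact U.natrec (C := KZ.{u}) (z := fun _ _ _ => ∅)
    (S := fun _ _ (a : (((ZFSet.{u} × ZFSet.{u}) × ZFSet.{u}) × ZFSet.{u}) × ZFSet.{u}) n r =>
      app a.1.1.1.2 (psnd (app (app a.1.1.1.1 r) (app a.1.2 (pair a.1.1.2 n)))))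
    (H := fun _ _ a n => Rr a.1.1.1.1 a.1.1.1.2 (fun i => app a.1.2 (pair a.1.1.2 (nat i))) n)
    (f := fun _ _ a => a.2)
    (by apply_rules (transparency := .reducible) (maxDepth := 400) using is_poly)
    (by apply_rules (transparency := .reducible) (maxDepth := 400) using is_poly)
    (fun _ _ _ => rfl) (fun _ _ _ n => rfl)
    (by apply_rules (transparency := .reducible) (maxDepth := 400) using is_poly)

theorem U.RQ {α : Type (u + 1)} [Ctx.{u} α]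
    {f₁ f₂ f₃ f₄ f₅ : Set ZFSet.{u} → Set ZFSet.{u} → α → ZFSet.{u}} (h₁ : U KZ.{u} f₁)
    (h₂ : U KZ.{u} f₂) (h₃ : U KZ.{u} f₃) (h₄ : U KZ.{u} f₄) (h₅ : U KZ.{u} f₅) :
    U KZ.{u} (fun N A a => GP.RQ (f₁ N A a) (f₂ N A a) (f₃ N A a) (f₄ N A a) (f₅ N A a)) :=
  u_RQ.comp ((((h₁.prodMk h₂).prodMk h₃).prodMk h₄).prodMk h₅)

attribute [is_poly] U.RQ

/-- The second coordinates, as a condition. -/
noncomputable def SecS (hh e μ F x : ZFSet.{u}) : ZFSet.{u} :=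
  img x (fun y => pair (pair μ y) (pfst (app (app hh (RQ hh e μ F y)) (app F (pair μ y)))))

theorem U.SecS {α : Type (u + 1)} [Ctx.{u} α]
    {f₁ f₂ f₃ f₄ f₅ : Set ZFSet.{u} → Set ZFSet.{u} → α → ZFSet.{u}} (h₁ : U KZ.{u} f₁)
    (h₂ : U KZ.{u} f₂) (h₃ : U KZ.{u} f₃) (h₄ : U KZ.{u} f₄) (h₅ : U KZ.{u} f₅) :
    U KZ.{u} (fun N A a => GP.SecS (f₁ N A a) (f₂ N A a) (f₃ N A a) (f₄ N A a) (f₅ N A a)) := by
  have h0 : U KZ.{u} (fun _ _ (a : (((ZFSet.{u} × ZFSet.{u}) × ZFSet.{u}) × ZFSet.{u}) ×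
      ZFSet.{u}) => GP.SecS a.1.1.1.1 a.1.1.1.2 a.1.1.2 a.1.2 a.2) := by
    unfold GP.SecS
    apply_rules (transparency := .reducible) (maxDepth := 400) using is_poly
  exact h0.comp ((((h₁.prodMk h₂).prodMk h₃).prodMk h₄).prodMk h₅)

attribute [is_poly] U.SecS

theorem SecS_nat (hh e F : ZFSet.{u}) (m : Ordinal.{u}) (n : ℕ) :
    SecS hh e (oz m) F (nat n) =
      cnd m (Ss hh e (fun i => app F (pair (oz m) (nat i)))) n := by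
  ext t
  unfold SecS
  rw [mem_img, mem_cnd]
  constructor
  · rintro ⟨y, hy, rfl⟩
    obtain ⟨i, hi, rfl⟩ := mem_nat.1 hy
    exact ⟨i, hi, by rw [RQ_nat]; rfl⟩
  · rintro ⟨i, hi, rfl⟩
    exact ⟨nat i, mem_nat.2 ⟨i, hi, rfl⟩, by rw [RQ_nat]; rfl⟩

theorem cnd_congr {m : Ordinal.{u}} {f f' : ℕ → ZFSet.{u}} {n : ℕ} (h : ∀ i < n, f i = f' i) :
    cnd m f n = cnd m f' n := by
  ext t
  rw [mem_cnd, mem_cnd]
  constructor
  · rintro ⟨i, hi, rfl⟩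
    exact ⟨i, hi, by rw [h i hi]⟩
  · rintro ⟨i, hi, rfl⟩
    exact ⟨i, hi, by rw [h i hi]⟩

theorem app_cnd {m : Ordinal.{u}} {f : ℕ → ZFSet.{u}} (hf : ∀ i, f i ∈ oz m) {n i : ℕ}
    (hi : i < n) : app (cnd m f n) (pair (oz m) (nat i)) = f i := by
  refine app_eq (mem_cnd.2 ⟨i, hi, rfl⟩) (fun z hz => ?_)
  exact (mem_C1.1 (cnd_mem hf)).2.2 _ _ _ hz (mem_cnd.2 ⟨i, hi, rfl⟩)

section main

variable {M : Set ZFSet.{u}} {Q K g e hh : ZFSet.{u}} {m : Ordinal.{u}}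

/-- The generic filter meets all the antichains. -/
theorem meet_anti (hM : Ctm M) (hQ : Q ∈ M) (hm : oz m ∈ M) (he : e ∈ M) (hhh : hh ∈ M)
    (h : AD Q (oz m) e hh) (hK : IsGeneric M Q K) :
    ∀ q ∈ Q, q ∈ K → ∀ η ∈ oz m, ∃ y ∈ oz m, ∃ ζ, app (app hh q) y = pair η ζ ∧
      app e ζ ∈ K := by
  intro q hqQ hq η hη
  have hD : ZFSet.sep (fun a => (∃ y ∈ oz m, ∃ ζ ∈ oz m, app (app hh q) y = pair η ζ ∧
      app e ζ ⊆ a) ∨ ¬ ∃ t ∈ Q, q ⊆ t ∧ a ⊆ t) Q ∈ M := by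
    have hu : U KZ.{u} (fun _ _ (a : (((((ZFSet.{u} × ZFSet.{u}) × ZFSet.{u}) × ZFSet.{u}) ×
        ZFSet.{u}) × ZFSet.{u})) => ZFSet.sep (fun b => (∃ y ∈ a.1.1.1.1.2, ∃ ζ ∈ a.1.1.1.1.2,
          app (app a.1.1.1.2 a.1.2) y = pair a.2 ζ ∧ app a.1.1.2 ζ ⊆ b) ∨
          ¬ ∃ t ∈ a.1.1.1.1.1, a.1.2 ⊆ t ∧ b ⊆ t) a.1.1.1.1.1) := by
      apply_rules (transparency := .reducible) (maxDepth := 400) using is_poly
    have := hu.closed hM.zf (a := (((((Q, oz m), hh), e), q), η)) (by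
      simp [hQ, hm, he, hhh, hM.zf.trans Q hQ q hqQ, hM.zf.trans _ hm η hη])
    simpa using this
  obtain ⟨a, ha, ha'⟩ := hK.meets _ hD (fun a ha => (ZFSet.mem_sep.1 ha).1) (by
    intro a ha
    by_cases hc : ∃ t ∈ Q, q ⊆ t ∧ a ⊆ t
    · obtain ⟨r, hr, h1, h2⟩ := hc
      obtain ⟨y, hy, ζ, h3, t, ht, h4, h5⟩ := h.max q hqQ η hη r hr h1
      obtain ⟨η', _, ζ', hζ', h6, _⟩ := h.val q hqQ y hy
      rw [h3] at h6
      obtain ⟨_, rfl⟩ := pair_inj.1 h6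
      exact ⟨t, ZFSet.mem_sep.2 ⟨ht, Or.inl ⟨y, hy, ζ, hζ', h3, h5⟩⟩, h2.trans h4⟩
    · exact ⟨a, ZFSet.mem_sep.2 ⟨ha, Or.inr hc⟩, fun _ h => h⟩)
  obtain ⟨_, hz | hz⟩ := ZFSet.mem_sep.1 ha'
  · obtain ⟨y, hy, ζ, _, h3, h4⟩ := hz
    obtain ⟨η', _, ζ', _, h6, h7, _⟩ := h.val q hqQ y hy
    rw [h3] at h6
    obtain ⟨_, rfl⟩ := pair_inj.1 h6
    exact ⟨y, hy, ζ, h3, hK.up a ha _ h7 h4⟩
  · exfalso
    obtain ⟨r, hr, h1, h2⟩ := hK.dir q hq a ha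
    exact hz ⟨r, hK.sub hr, h1, h2⟩

/-- Density of the pairs given by finite branches. -/
theorem abs_dense (h : AD Q (oz m) e hh) {D : ZFSet.{u}} (hDC : D ⊆ Col m (m + 1))
    (hD : ∀ p ∈ Col m (m + 1), ∃ q ∈ D, p ⊆ q) {q₀ c₀ : ZFSet.{u}} (hq₀ : q₀ ∈ Q)
    (hc₀ : c₀ ∈ Col m (m + 1)) : ∃ (t : ℕ → ZFSet.{u}) (n : ℕ), (∀ i, t i ∈ oz m) ∧
      q₀ ⊆ Rr hh e t n ∧ c₀ ⊆ cnd m (Ss hh e t) n ∧ ∃ d ∈ D, d ⊆ cnd m t n := by
  classical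
  obtain ⟨k₀, hk₀⟩ := exists_bound hc₀
  obtain ⟨η₀, hη₀, hη₀'⟩ := h.surj q₀ hq₀
  obtain ⟨hc1, hc2⟩ := app_cond h.z hc₀
  obtain ⟨t, ht⟩ := exists_branch h (fun r => Cp Q q₀ r)
    ⟨q₀, hq₀, fun _ h => h, ZFSet.empty_subset _⟩ (by
      rintro q hq ⟨r, hr, h1, h2⟩ η hη
      obtain ⟨y, hy, ζ, h3, s, hs, h4, h5⟩ := h.max q hq η hη r hr h2
      exact ⟨y, hy, ζ, h3, s, hs, h1.trans h4, h5⟩)
    (fun i => if i < k₀ then app c₀ (pair (oz m) (nat i)) else η₀) (by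
      intro i
      split_ifs
      · exact hc1 _
      · exact hη₀)
  have ht1 : ∀ i, t i ∈ oz m := fun i => (ht i).1
  have hq : q₀ ⊆ Rr hh e t (k₀ + 1) := by
    obtain ⟨_, _, _, _, _, _, h5⟩ := Rr_step h ht1 k₀
    have h6 : Ss hh e t k₀ = η₀ := by
      rw [(ht k₀).2.2, if_neg (lt_irrefl _)]
    rw [h6, hη₀'] at h5
    rcases h5 with h5 | h5
    · exact h5
    · exact absurd (ht (k₀ + 1)).2.1 h5
  have hc : c₀ ⊆ cnd m (Ss hh e t) (k₀ + 1) := by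
    intro z hz
    obtain ⟨i, y, _, rfl⟩ := (mem_C1.1 hc₀).1 z hz
    have hi := hk₀ i y hz
    refine mem_cnd.2 ⟨i, by omega, ?_⟩
    rw [(ht i).2.2, if_pos hi, hc2 _ _ hz]
  obtain ⟨d, hd, hpd⟩ := hD (cnd m t (k₀ + 1)) (cnd_mem ht1)
  have hdC := hDC hd
  obtain ⟨n, hn⟩ := exists_bound hdC
  obtain ⟨hd1, hd2⟩ := app_cond h.z hdC
  refine ⟨fun i => app d (pair (oz m) (nat i)), max n (k₀ + 1), fun i => hd1 _, ?_, ?_, d, hd, ?_⟩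
  · have e1 : Rr hh e t (k₀ + 1) = Rr hh e (fun i => app d (pair (oz m) (nat i))) (k₀ + 1) :=
      Rr_congr (fun i hi => (hd2 _ _ (hpd (mem_cnd.2 ⟨i, hi, rfl⟩))).symm)
    rw [e1] at hq
    exact hq.trans (Rr_mono h (fun i => hd1 _) (le_max_right _ _))
  · have e1 : cnd m (Ss hh e t) (k₀ + 1) =
        cnd m (Ss hh e (fun i => app d (pair (oz m) (nat i)))) (k₀ + 1) :=
      cnd_congr (fun i hi => Ss_congr (fun j hj =>
        (hd2 _ _ (hpd (mem_cnd.2 ⟨j, by omega, rfl⟩))).symm))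
    rw [e1] at hc
    exact hc.trans (cnd_mono (le_max_right _ _))
  · intro z hz
    obtain ⟨i, y, _, rfl⟩ := (mem_C1.1 hdC).1 z hz
    refine mem_cnd.2 ⟨i, lt_of_lt_of_le (hn i y hz) (le_max_left _ _), ?_⟩
    rw [hd2 _ _ hz]

end main

end Pool.Agent.Helper66.GP
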