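import Pool.Agent.Helper66.GP.ABSd

/-! # Absorption, part e: the main theorem given the combinatorial data -/

universe u

namespace Pool.Agent.Helper66.GP

open ZFSet Pool.Agent.Helper66.SC Pool.Agent.Helper22.SC
open Pool.Agent.Helper22.GP (mem_oz mem_TC mem_Col Col_mem empty_mem_Col oz_mem_of_le)

variable {M : Set ZFSet.{u}} {Q K g e hh : ZFSet.{u}} {m : Ordinal.{u}}

theorem abs_generic (hM : Ctm M) (hQ : Q ∈ M) (hm : oz m ∈ M) (he : e ∈ M) (hhh : hh ∈ M)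
    (h : AD Q (oz m) e hh) (hK : IsGeneric M Q K) {φ f : ℕ → ZFSet.{u}}
    (hg : IsGeneric (Ext M K) (Col m (m + 1)) (gf m φ)) (hf : ∀ i, f i ∈ oz m ∧
      Rr hh e f i ∈ K ∧ Ss hh e f i = φ i) : IsGeneric M (Col m (m + 1)) (gf m f) := by
  have hC : Col m (m + 1) ∈ M := Col_mem hM.zf hm (oz_succ_mem hM.zf hm)
  refine gf_generic (fun D hD hDC hd => ?_)
  have hE : ZFSet.sep (fun z => ∃ c ∈ Col m (m + 1), ∃ n ∈ ZFSet.omega,
      (∀ x ∈ dom c, psnd x ∈ n) ∧ (∃ d ∈ D, d ⊆ c) ∧ RQ hh e (oz m) c n ⊆ pfst z ∧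
      SecS hh e (oz m) c n ⊆ psnd z) (Q.prod (Col m (m + 1))) ∈ M := by
    have hu : U KZ.{u} (fun _ _ (a : (((((ZFSet.{u} × ZFSet.{u}) × ZFSet.{u}) × ZFSet.{u}) ×
        ZFSet.{u}) × ZFSet.{u})) => ZFSet.sep (fun z => ∃ c ∈ a.2, ∃ n ∈ ZFSet.omega,
      (∀ x ∈ dom c, psnd x ∈ n) ∧ (∃ d ∈ a.1.2, d ⊆ c) ∧
      GP.RQ a.1.1.1.2 a.1.1.2 a.1.1.1.1.2 c n ⊆ pfst z ∧
      GP.SecS a.1.1.1.2 a.1.1.2 a.1.1.1.1.2 c n ⊆ psnd z) (a.1.1.1.1.1.prod a.2)) := by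
      apply_rules (transparency := .reducible) (maxDepth := 400) using is_poly
    have := hu.closed hM.zf (a := (((((Q, oz m), hh), e), D), Col m (m + 1))) (by
      simp [hQ, hm, he, hhh, hD, hC])
    simpa using this
  obtain ⟨q, hq, c', hc', hz⟩ := pp_pairs hM hQ hC hK hg hE (by
    intro q₀ hq₀ c₀ hc₀
    obtain ⟨t, n, ht, h1, h2, d, hd, h3⟩ := abs_dense h hDC hd hq₀ hc₀
    have e1 : ∀ i < n, app (cnd m t n) (pair (oz m) (nat i)) = t i := fun i hi => app_cnd ht hi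
    refine ⟨Rr hh e t n, Rr_mem h ht n, cnd m (Ss hh e t) n,
      cnd_mem (fun i => (Rr_step h ht i).1), h1, h2, ?_⟩
    refine ZFSet.mem_sep.2 ⟨pair_mem_prod.2 ⟨Rr_mem h ht n,
      cnd_mem (fun i => (Rr_step h ht i).1)⟩, cnd m t n, cnd_mem ht, nat n, nat_mem_omega n,
      ?_, ⟨d, hd, h3⟩, ?_, ?_⟩
    · intro x hx
      obtain ⟨y, hy⟩ := mem_dom.1 hx
      obtain ⟨i, hi, e2⟩ := mem_cnd.1 hy
      rw [(pair_inj.1 e2).1, psnd_pair]
      exact nat_mem_nat.2 hi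
    · rw [pfst_pair, RQ_nat, Rr_congr e1]
    · rw [psnd_pair, SecS_nat]
      rw [cnd_congr (fun i hi => Ss_congr (fun j hj => e1 j (by omega)))])
  obtain ⟨_, c, hc, n, hn, h1, ⟨d, hd, hdc⟩, h2, h3⟩ := ZFSet.mem_sep.1 hz
  obtain ⟨n, rfl⟩ := mem_omega.1 hn
  rw [pfst_pair, RQ_nat] at h2
  rw [psnd_pair, SecS_nat] at h3
  obtain ⟨ht1, ht2⟩ := app_cond h.z hc
  have ht : ∀ i : ℕ, (fun i : ℕ => app c (pair (oz m) (nat i))) i ∈ oz m := fun i => ht1 _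
  have hu := branch_unique h hK.sub (fun p hp q hq => hK.dir p hp q hq) ht
    (fun i => (hf i).1) (n := n) (fun i hi => hK.up q hq _ (Rr_mem h ht i)
      ((Rr_mono h ht hi).trans h2)) (fun i _ => (hf i).2.1) (fun i hi => by
        rw [(hf i).2.2]
        exact ((mem_gf.1 hc').2 i _ (h3 (mem_cnd.2 ⟨i, hi, rfl⟩))).symm)
  have hcf : c ∈ gf m f := by
    refine mem_gf.2 ⟨hc, fun i y hy => ?_⟩
    have hi : i < n := by
      have := h1 _ (mem_dom.2 ⟨y, hy⟩)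
      rw [psnd_pair] at this
      exact nat_mem_nat.1 this
    rw [← hu i hi]
    exact ht2 _ _ hy
  exact ⟨d, mem_gf.2 ⟨hDC hd, fun i y hy => (mem_gf.1 hcf).2 i y (hdc hy)⟩, hd⟩

/-- The union of the filter of a function, as a set. -/
noncomputable def gs (m : Ordinal.{u}) (f : ℕ → ZFSet.{u}) : ZFSet.{u} :=
  img ZFSet.omega (fun x => pair (pair (oz m) x) (f (toNat x)))

theorem mem_gs {m : Ordinal.{u}} {f : ℕ → ZFSet.{u}} {t : ZFSet.{u}} :
    t ∈ gs m f ↔ ∃ i : ℕ, t = pair (pair (oz m) (nat i)) (f i) := by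
  unfold gs
  rw [mem_img]
  constructor
  · rintro ⟨x, hx, rfl⟩
    obtain ⟨i, rfl⟩ := mem_omega.1 hx
    exact ⟨i, by rw [toNat_nat]⟩
  · rintro ⟨i, rfl⟩
    exact ⟨nat i, nat_mem_omega i, by rw [toNat_nat]⟩

theorem sUnion_gf {f : ℕ → ZFSet.{u}} (hf : ∀ i, f i ∈ oz m) :
    (ZFSet.sUnion (gf m f) : ZFSet.{u}) = gs m f := by
  ext t
  rw [ZFSet.mem_sUnion, mem_gs]
  constructor
  · rintro ⟨p, hp, ht⟩
    obtain ⟨hp1, hp2⟩ := mem_gf.1 hp
    obtain ⟨i, y, _, rfl⟩ := (mem_C1.1 hp1).1 t ht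
    exact ⟨i, by rw [hp2 i y ht]⟩
  · rintro ⟨i, rfl⟩
    exact ⟨cnd m f (i + 1), cnd_mem_gf hf, mem_cnd.2 ⟨i, by omega, rfl⟩⟩

theorem gf_eq {f : ℕ → ZFSet.{u}} : gf m f = (Col m (m + 1)).sep (fun p => p ⊆ gs m f) := by
  ext p
  rw [mem_gf, ZFSet.mem_sep]
  refine and_congr_right fun hp => ?_
  constructor
  · intro h t ht
    obtain ⟨i, y, _, rfl⟩ := (mem_C1.1 hp).1 t ht
    exact mem_gs.2 ⟨i, by rw [h i y ht]⟩
  · intro h i y hy
    obtain ⟨j, e1⟩ := mem_gs.1 (h hy)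
    obtain ⟨e2, e3⟩ := pair_inj.1 e1
    rw [nat_inj.1 (pair_inj.1 e2).2, e3]

theorem app_gs {f : ℕ → ZFSet.{u}} (i : ℕ) : app (gs m f) (pair (oz m) (nat i)) = f i := by
  refine app_eq (mem_gs.2 ⟨i, rfl⟩) (fun z hz => ?_)
  obtain ⟨j, e1⟩ := mem_gs.1 hz
  obtain ⟨e2, e3⟩ := pair_inj.1 e1
  rw [nat_inj.1 (pair_inj.1 e2).2, e3]

theorem gs_mem_iff {N : Set ZFSet.{u}} (hN : IsZF N ∅) (hm : oz m ∈ N) {f : ℕ → ZFSet.{u}}
    (hf : ∀ i, f i ∈ oz m) : gf m f ∈ N ↔ gs m f ∈ N := by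
  have hC : Col m (m + 1) ∈ N := Col_mem hN hm (oz_succ_mem hN hm)
  constructor
  · intro h
    rw [← sUnion_gf hf]
    exact hN.sUnion _ h
  · intro h
    rw [gf_eq]
    have hu : U KZ.{u} (fun _ _ (a : ZFSet.{u} × ZFSet.{u}) =>
        ZFSet.sep (fun p => p ⊆ a.2) a.1) := by
      apply_rules (transparency := .reducible) (maxDepth := 400) using is_poly
    have := hu.closed hN (a := (Col m (m + 1), gs m f)) (by simp [hC, h])
    simpa using this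

/-- `K` and `g` are computed from the branch. -/
theorem abs_back (hM : Ctm M) (hQ : Q ∈ M) (hm : oz m ∈ M) (he : e ∈ M) (hhh : hh ∈ M)
    (h : AD Q (oz m) e hh) (hK : IsGeneric M Q K) {φ f : ℕ → ZFSet.{u}}
    (hφ : ∀ i, φ i ∈ oz m)
    (hg : IsGeneric (Ext M K) (Col m (m + 1)) (gf m φ)) (hf : ∀ i, f i ∈ oz m ∧
      Rr hh e f i ∈ K ∧ Ss hh e f i = φ i) {N : Set ZFSet.{u}} (hN : IsZF N ∅)
    (hMN : ∀ x ∈ M, x ∈ N) (hfN : gf m f ∈ N) : K ∈ N ∧ gf m φ ∈ N := by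
  have hf1 : ∀ i, f i ∈ oz m := fun i => (hf i).1
  have hgs := (gs_mem_iff hN (hMN _ hm) hf1).1 hfN
  have hRQ : ∀ n : ℕ, RQ hh e (oz m) (gs m f) (nat n) = Rr hh e f n := by
    intro n
    rw [RQ_nat]
    exact Rr_congr (fun i _ => app_gs i)
  have hKeq : K = ZFSet.sep (fun q => ∃ n ∈ ZFSet.omega, q ⊆ RQ hh e (oz m) (gs m f) n) Q := by
    ext q
    rw [ZFSet.mem_sep]
    constructor
    · intro hq
      refine ⟨hK.sub hq, ?_⟩
      -- some `φ n` codes `q`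
      have hC : Col m (m + 1) ∈ Ext M K := sub_ext hM hQ hK
        (Col_mem hM.zf hm (oz_succ_mem hM.zf hm))
      have hE := st_KE M Q K hM hQ hK
      obtain ⟨η, hη, hη'⟩ := h.surj q (hK.sub hq)
      have hD : ZFSet.sep (fun p => ∃ n ∈ ZFSet.omega, pair (pair (oz m) n) η ∈ p)
          (Col m (m + 1)) ∈ Ext M K := by
        have hu : U KZ.{u} (fun _ _ (a : (ZFSet.{u} × ZFSet.{u}) × ZFSet.{u}) =>
            ZFSet.sep (fun p => ∃ n ∈ ZFSet.omega, pair (pair a.1.2 n) a.2 ∈ p) a.1.1) := by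
          apply_rules (transparency := .reducible) (maxDepth := 400) using is_poly
        have := hu.closed hE.zf (a := ((Col m (m + 1), oz m), η)) (by
          simp [hC, sub_ext hM hQ hK hm, sub_ext hM hQ hK (hM.zf.trans _ hm η hη)])
        simpa using this
      obtain ⟨p, hp, hp'⟩ := hg.meets _ hD (fun p hp => (ZFSet.mem_sep.1 hp).1) (by
        intro p hp
        obtain ⟨n, hn⟩ := exists_bound hp
        obtain ⟨p1, p2, p3⟩ := mem_C1.1 hp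
        refine ⟨insert (pair (pair (oz m) (nat n)) η) p, ZFSet.mem_sep.2 ⟨mem_C1.2 ⟨?_, ?_, ?_⟩,
          nat n, nat_mem_omega n, ZFSet.mem_insert_iff.2 (Or.inl rfl)⟩, fun x hx =>
            ZFSet.mem_insert_iff.2 (Or.inr hx)⟩
        · intro t ht
          rcases ZFSet.mem_insert_iff.1 ht with rfl | h
          · exact ⟨n, η, hη, rfl⟩
          · exact p1 t h
        · have : {x | x ∈ insert (pair (pair (oz m) (nat n)) η) p} =
              insert (pair (pair (oz m) (nat n)) η) {x | x ∈ p} := by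
            ext x
            simp
          rw [this]
          exact p2.insert _
        · intro x y z hy hz
          rcases ZFSet.mem_insert_iff.1 hy with hy | hy <;>
            rcases ZFSet.mem_insert_iff.1 hz with hz | hz
          · rw [(pair_inj.1 hy).2, (pair_inj.1 hz).2]
          · exact absurd (hn n z ((pair_inj.1 hy).1 ▸ hz)) (lt_irrefl _)
          · exact absurd (hn n y ((pair_inj.1 hz).1 ▸ hy)) (lt_irrefl _)
          · exact p3 x y z hy hz)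
      obtain ⟨_, n, hn, hn'⟩ := ZFSet.mem_sep.1 hp'
      obtain ⟨n, rfl⟩ := mem_omega.1 hn
      have hφn := (mem_gf.1 hp).2 n η hn'
      obtain ⟨_, _, _, _, _, _, h5⟩ := Rr_step h hf1 n
      rw [(hf n).2.2, hφn, hη'] at h5
      refine ⟨nat (n + 1), nat_mem_omega _, ?_⟩
      rw [hRQ]
      rcases h5 with h5 | h5
      · exact h5
      · exfalso
        obtain ⟨r, hr, h6, h7⟩ := hK.dir q hq _ (hf (n + 1)).2.1
        exact h5 ⟨r, hK.sub hr, h6, h7⟩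
    · rintro ⟨hq, n, hn, h1⟩
      obtain ⟨n, rfl⟩ := mem_omega.1 hn
      rw [hRQ] at h1
      exact hK.up _ (hf n).2.1 q hq h1
  refine ⟨?_, ?_⟩
  · rw [hKeq]
    have hu : U KZ.{u} (fun _ _ (a : ((((ZFSet.{u} × ZFSet.{u}) × ZFSet.{u}) × ZFSet.{u}) ×
        ZFSet.{u})) => ZFSet.sep (fun q => ∃ n ∈ ZFSet.omega,
          q ⊆ GP.RQ a.1.1.1.1 a.1.1.1.2 a.1.1.2 a.1.2 n) a.2) := by
      apply_rules (transparency := .reducible) (maxDepth := 400) using is_poly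
    have := hu.closed hN (a := ((((hh, e), oz m), gs m f), Q)) (by
      simp [hMN _ hhh, hMN _ he, hMN _ hm, hgs, hMN _ hQ])
    simpa using this
  · rw [gs_mem_iff hN (hMN _ hm) hφ]
    have e1 : gs m φ = SecS hh e (oz m) (gs m f) ZFSet.omega := by
      ext t
      unfold SecS
      rw [mem_gs, mem_img]
      constructor
      · rintro ⟨i, rfl⟩
        refine ⟨nat i, nat_mem_omega i, ?_⟩
        rw [hRQ, app_gs, ← (hf i).2.2]
        rfl
      · rintro ⟨y, hy, rfl⟩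
        obtain ⟨i, rfl⟩ := mem_omega.1 hy
        refine ⟨i, ?_⟩
        rw [hRQ, app_gs, ← (hf i).2.2]
        rfl
    rw [e1]
    have hu : U KZ.{u} (fun _ _ (a : ((((ZFSet.{u} × ZFSet.{u}) × ZFSet.{u}) × ZFSet.{u}))) =>
        GP.SecS a.1.1.1 a.1.1.2 a.1.2 a.2 ZFSet.omega) := by
      apply_rules (transparency := .reducible) (maxDepth := 400) using is_poly
    have := hu.closed hN (a := (((hh, e), oz m), gs m f)) (by
      simp [hMN _ hhh, hMN _ he, hMN _ hm, hgs])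
    simpa using this

/-- The next element of the branch, computed from `K` and the second coordinate. -/
noncomputable def nxt (hh e μ K q η : ZFSet.{u}) : ZFSet.{u} :=
  ZFSet.sUnion (μ.sep (fun y => pfst (app (app hh q) y) = η ∧ app e (psnd (app (app hh q) y)) ∈ K))

theorem U.nxt {α : Type (u + 1)} [Ctx.{u} α]
    {f₁ f₂ f₃ f₄ f₅ f₆ : Set ZFSet.{u} → Set ZFSet.{u} → α → ZFSet.{u}} (h₁ : U KZ.{u} f₁)
    (h₂ : U KZ.{u} f₂) (h₃ : U KZ.{u} f₃) (h₄ : U KZ.{u} f₄) (h₅ : U KZ.{u} f₅)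
    (h₆ : U KZ.{u} f₆) : U KZ.{u} (fun N A a => GP.nxt (f₁ N A a) (f₂ N A a) (f₃ N A a)
      (f₄ N A a) (f₅ N A a) (f₆ N A a)) := by
  have h0 : U KZ.{u} (fun _ _ (a : ((((ZFSet.{u} × ZFSet.{u}) × ZFSet.{u}) × ZFSet.{u}) ×
      ZFSet.{u}) × ZFSet.{u}) => GP.nxt a.1.1.1.1.1 a.1.1.1.1.2 a.1.1.1.2 a.1.1.2 a.1.2 a.2) := by
    unfold GP.nxt
    apply_rules (transparency := .reducible) (maxDepth := 400) using is_poly
  have h1 : U KZ.{u} (fun N A a => (((((f₁ N A a, f₂ N A a), f₃ N A a), f₄ N A a), f₅ N A a),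
      f₆ N A a)) := ((((h₁.prodMk h₂).prodMk h₃).prodMk h₄).prodMk h₅).prodMk h₆
  exact U.comp (g := fun _ _ (a : ((((ZFSet.{u} × ZFSet.{u}) × ZFSet.{u}) × ZFSet.{u}) ×
      ZFSet.{u}) × ZFSet.{u}) => GP.nxt a.1.1.1.1.1 a.1.1.1.1.2 a.1.1.1.2 a.1.1.2 a.1.2 a.2)
    (f := fun N A a => (((((f₁ N A a, f₂ N A a), f₃ N A a), f₄ N A a), f₅ N A a),
      f₆ N A a)) h0 h1

attribute [is_poly] U.nxt

/-- The first coordinates, computed from `K` and the second coordinates. -/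
noncomputable def Rn (hh e μ K F : ZFSet.{u}) : ℕ → ZFSet.{u}
  | 0 => ∅
  | n + 1 => app e (psnd (app (app hh (Rn hh e μ K F n))
      (nxt hh e μ K (Rn hh e μ K F n) (app F (pair μ (nat n))))))

open Classical in
/-- The set version. -/
noncomputable def RnQ (hh e μ K F x : ZFSet.{u}) : ZFSet.{u} :=
  if x ∈ ZFSet.omega then Rn hh e μ K F (toNat x) else ∅

theorem u_RnQ : U KZ.{u} (fun _ _ (a : ((((ZFSet.{u} × ZFSet.{u}) × ZFSet.{u}) × ZFSet.{u}) ×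
    ZFSet.{u}) × ZFSet.{u}) => RnQ a.1.1.1.1.1 a.1.1.1.1.2 a.1.1.1.2 a.1.1.2 a.1.2 a.2) := by
  unfold RnQ
  exact U.natrec (C := KZ.{u}) (z := fun _ _ _ => ∅)
    (S := fun _ _ (a : ((((ZFSet.{u} × ZFSet.{u}) × ZFSet.{u}) × ZFSet.{u}) × ZFSet.{u}) ×
      ZFSet.{u}) n r => app a.1.1.1.1.2 (psnd (app (app a.1.1.1.1.1 r)
        (GP.nxt a.1.1.1.1.1 a.1.1.1.1.2 a.1.1.1.2 a.1.1.2 r (app a.1.2 (pair a.1.1.1.2 n))))))
    (H := fun _ _ a n => Rn a.1.1.1.1.1 a.1.1.1.1.2 a.1.1.1.2 a.1.1.2 a.1.2 n)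
    (f := fun _ _ a => a.2)
    (by apply_rules (transparency := .reducible) (maxDepth := 400) using is_poly)
    (by apply_rules (transparency := .reducible) (maxDepth := 400) using is_poly)
    (fun _ _ _ => rfl) (fun _ _ _ n => rfl)
    (by apply_rules (transparency := .reducible) (maxDepth := 400) using is_poly)

theorem U.RnQ {α : Type (u + 1)} [Ctx.{u} α]
    {f₁ f₂ f₃ f₄ f₅ f₆ : Set ZFSet.{u} → Set ZFSet.{u} → α → ZFSet.{u}} (h₁ : U KZ.{u} f₁)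
    (h₂ : U KZ.{u} f₂) (h₃ : U KZ.{u} f₃) (h₄ : U KZ.{u} f₄) (h₅ : U KZ.{u} f₅)
    (h₆ : U KZ.{u} f₆) : U KZ.{u} (fun N A a => GP.RnQ (f₁ N A a) (f₂ N A a) (f₃ N A a)
      (f₄ N A a) (f₅ N A a) (f₆ N A a)) := by
  have h1 : U KZ.{u} (fun N A a => (((((f₁ N A a, f₂ N A a), f₃ N A a), f₄ N A a), f₅ N A a),
      f₆ N A a)) := ((((h₁.prodMk h₂).prodMk h₃).prodMk h₄).prodMk h₅).prodMk h₆
  exact U.comp (g := fun _ _ (a : ((((ZFSet.{u} × ZFSet.{u}) × ZFSet.{u}) × ZFSet.{u}) ×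
      ZFSet.{u}) × ZFSet.{u}) => GP.RnQ a.1.1.1.1.1 a.1.1.1.1.2 a.1.1.1.2 a.1.1.2 a.1.2 a.2)
    (f := fun N A a => (((((f₁ N A a, f₂ N A a), f₃ N A a), f₄ N A a), f₅ N A a),
      f₆ N A a)) u_RnQ h1

attribute [is_poly] U.RnQ

/-- The branch is computed from `K` and `g`. -/
theorem abs_forth (hm : oz m ∈ M) (he : e ∈ M) (hhh : hh ∈ M)
    (h : AD Q (oz m) e hh) (hK : IsGeneric M Q K) {φ f : ℕ → ZFSet.{u}}
    (hφ : ∀ i, φ i ∈ oz m) (hf : ∀ i, f i ∈ oz m ∧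
      Rr hh e f i ∈ K ∧ Ss hh e f i = φ i) {N : Set ZFSet.{u}} (hN : IsZF N ∅)
    (hMN : ∀ x ∈ M, x ∈ N) (hKN : K ∈ N) (hgN : gf m φ ∈ N) : gf m f ∈ N := by
  classical
  have hf1 : ∀ i, f i ∈ oz m := fun i => (hf i).1
  have hgs := (gs_mem_iff hN (hMN _ hm) hφ).1 hgN
  rw [gs_mem_iff hN (hMN _ hm) hf1]
  -- the unique next value
  have hnxt : ∀ n, nxt hh e (oz m) K (Rr hh e f n) (φ n) = f n := by
    intro n
    obtain ⟨_, ζ, _, h1, h2, _⟩ := Rr_step h hf1 n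
    have hmem : f n ∈ (oz m).sep (fun y => pfst (app (app hh (Rr hh e f n)) y) = φ n ∧
        app e (psnd (app (app hh (Rr hh e f n)) y)) ∈ K) := by
      refine ZFSet.mem_sep.2 ⟨hf1 n, (hf n).2.2, ?_⟩
      exact (hf (n + 1)).2.1
    have huniq : ∀ y ∈ (oz m).sep (fun y => pfst (app (app hh (Rr hh e f n)) y) = φ n ∧
        app e (psnd (app (app hh (Rr hh e f n)) y)) ∈ K), y = f n := by
      intro y hy
      obtain ⟨hy1, hy2, hy3⟩ := ZFSet.mem_sep.1 hy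
      have hq := Rr_mem h hf1 n
      obtain ⟨η', _, ζ', _, h3, _⟩ := h.val _ hq y hy1
      rw [h3, pfst_pair] at hy2
      rw [h3, psnd_pair] at hy3
      rw [hy2] at h3
      rw [(hf n).2.2] at h1
      have hc : Cp Q (app e ζ') (app e ζ) := by
        have h4 : app e ζ ∈ K := by rw [← h2]; exact (hf (n + 1)).2.1
        obtain ⟨r, hr, h5, h6⟩ := hK.dir _ hy3 _ h4
        exact ⟨r, hK.sub hr, h5, h6⟩
      have := h.inc _ hq y hy1 (f n) (hf1 n) _ _ _ h3 h1 hc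
      subst this
      exact h.inj _ hq y hy1 (f n) (hf1 n) (h3.trans h1.symm)
    unfold nxt
    ext z
    rw [ZFSet.mem_sUnion]
    constructor
    · rintro ⟨y, hy, hz⟩
      rwa [huniq y hy] at hz
    · intro hz
      exact ⟨f n, hmem, hz⟩
  have hH : ∀ n, RnQ hh e (oz m) K (gs m φ) (nat n) = Rr hh e f n := by
    intro n
    unfold RnQ
    rw [if_pos (nat_mem_omega n), toNat_nat]
    induction n with
    | zero => rfl
    | succ n ih => rw [Rn, ih, app_gs, hnxt n, Rr]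
  have hu : U KZ.{u} (fun _ _ (p : (((((ZFSet.{u} × ZFSet.{u}) × ZFSet.{u}) × ZFSet.{u}) ×
      ZFSet.{u}))) => Helper66.SC.img ZFSet.omega (fun x => pair (pair p.1.1.2 x)
        (GP.nxt p.1.1.1.1 p.1.1.1.2 p.1.1.2 p.1.2
          (GP.RnQ p.1.1.1.1 p.1.1.1.2 p.1.1.2 p.1.2 p.2 x) (app p.2 (pair p.1.1.2 x))))) := by
    apply_rules (transparency := .reducible) (maxDepth := 400) using is_poly
  have := hu.closed hN (a := ((((hh, e), oz m), K), gs m φ)) (by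
    simp [hMN _ hhh, hMN _ he, hMN _ hm, hKN, hgs])
  rw [in_zfset] at this
  have e1 : gs m f = Helper66.SC.img ZFSet.omega (fun x => pair (pair (oz m) x)
        (nxt hh e (oz m) K (RnQ hh e (oz m) K (gs m φ) x) (app (gs m φ) (pair (oz m) x)))) := by
    ext t
    rw [mem_gs, mem_img]
    constructor
    · rintro ⟨i, rfl⟩
      refine ⟨nat i, nat_mem_omega i, ?_⟩
      rw [hH, app_gs, hnxt]
    · rintro ⟨y, hy, rfl⟩
      obtain ⟨i, rfl⟩ := mem_omega.1 hy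
      refine ⟨i, ?_⟩
      rw [hH, app_gs, hnxt]
  rw [e1]
  exact this

/-- Absorption, given the combinatorial data. -/
theorem abs_main (hM : Ctm M) (hQ : Q ∈ M) (hm : oz m ∈ M) (he : e ∈ M) (hhh : hh ∈ M)
    (h : AD Q (oz m) e hh) (hK : IsGeneric M Q K)
    (hg : IsGeneric (Ext M K) (Col m (m + 1)) g) :
    ∃ g', IsGeneric M (Col m (m + 1)) g' ∧ Ext M g' = Ext (Ext M K) g := by
  have hE := st_KE M Q K hM hQ hK
  have hmE := sub_ext hM hQ hK hm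
  have hC : Col m (m + 1) ∈ M := Col_mem hM.zf hm (oz_succ_mem hM.zf hm)
  have hCE := sub_ext hM hQ hK hC
  obtain ⟨φ, hφ, rfl, _⟩ := gen_fun hE.zf hmE h.z hg
  obtain ⟨f, hf⟩ := exists_branch h (fun q => q ∈ K) hK.top
    (meet_anti hM hQ hm he hhh h hK) φ hφ
  have hgen := abs_generic hM hQ hm he hhh h hK hg hf
  refine ⟨gf m f, hgen, ?_⟩
  have hEE := st_KE _ _ _ hE hCE hg
  have hEf := st_KE M _ _ hM hC hgen
  apply Set.Subset.antisymm
  · refine ext_le hEE (fun x hx => sub_ext hE hCE hg (sub_ext hM hQ hK hx)) ?_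
    exact abs_forth hm he hhh h hK hφ hf hEE.zf
      (fun x hx => sub_ext hE hCE hg (sub_ext hM hQ hK hx))
      (sub_ext hE hCE hg (gen_mem_ext hM hQ hK)) (gen_mem_ext hE hCE hg)
  · obtain ⟨h1, h2⟩ := abs_back hM hQ hm he hhh h hK hφ hg hf hEf.zf
      (fun x hx => sub_ext hM hC hgen hx) (gen_mem_ext hM hC hgen)
    refine ext_le hEf (fun x hx => ?_) h2
    exact ext_le hEf (fun y hy => sub_ext hM hC hgen hy) h1 hx

end Pool.Agent.Helper66.GP
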