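import Mathlib
import Pool.Agent.Helper66.SC.Base

/-!
# Basic notions for the final statement (MP_d59a59_lc)

Reals are subsets of `ω` (points of the Cantor space `2^ω`), elements of `ω^ω` are functions
from `ω` to `ω`, all in the sense of a transitive model `N` of ZF.
-/

universe u

namespace Pool.Agent.Helper66.GP

open ZFSet MeasureTheory Pool.Agent.Helper66.SC

/-- The von Neumann natural number `n`. -/
noncomputable abbrev nz' (n : ℕ) : ZFSet.{u} := Ordinal.toZFSet (n : Ordinal.{u})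

/-- `x ≤ y` everywhere, for functions from `ω` to `ω`. -/
def LeF (x y : ZFSet.{u}) : Prop := ∀ n m m', pair n m ∈ x → pair n m' ∈ y → m ⊆ m'

/-- The finite binary strings: a string of length `n` is a pair `(n, t)` with `t ⊆ n`. -/
noncomputable def Str : ZFSet.{u} :=
  (ZFSet.vonNeumann Ordinal.omega0).sep (fun s => ∃ (n : ℕ) (t : ZFSet.{u}), t ⊆ nz' n ∧
    s = pair (nz' n) t)

/-- The real `y` belongs to the open set coded by the set of strings `b`. -/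
def InU (b y : ZFSet.{u}) : Prop := ∃ n : ℕ, pair (nz' n) (y ∩ nz' n) ∈ b

/-- The subset of `ω` with characteristic function `x`. -/
noncomputable def rl (x : ℕ → Bool) : ZFSet.{u} :=
  ZFSet.omega.sep (fun k => ∃ n : ℕ, k = nz' n ∧ x n = true)

/-- The open subset of the Cantor space coded by `b`. -/
def US (b : ZFSet.{u}) : Set (ℕ → Bool) := {x | InU b (rl x)}

/-- The fair coin measure on the Cantor space. -/
noncomputable def coin : Measure (ℕ → Bool) :=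
  Measure.infinitePi (fun _ : ℕ => (PMF.uniformOfFintype Bool).toMeasure)

/-- Countable choice for sets of reals in `N`. -/
def ACwR (N : Set ZFSet.{u}) : Prop := ∀ s ∈ N,
  (∀ n : ℕ, ∃! S, pair (nz' n) S ∈ s) →
  (∀ (n : ℕ) S, pair (nz' n) S ∈ s → S ≠ ∅ ∧ ∀ y ∈ S, y ⊆ ZFSet.omega) →
  ∃ f ∈ N, ∀ n : ℕ, ∃ S, pair (nz' n) S ∈ s ∧ ∃ y ∈ S, ∀ w, pair (nz' n) w ∈ f ↔ w = y

/-- The set `S` of reals is Lebesgue measurable in `N`: for every `ε > 0` there are open sets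
`U ⊇ S` and `V ⊇ 2^ω \ S`, coded in `N`, with `μ(U ∩ V) < ε`. -/
def Measb (N : Set ZFSet.{u}) (S : ZFSet.{u}) : Prop := ∀ ε : ENNReal, 0 < ε →
  ∃ b ∈ N, ∃ c ∈ N, b ⊆ Str ∧ c ⊆ Str ∧
    (∀ y ∈ N, y ⊆ ZFSet.omega → (y ∈ S → InU b y) ∧ (y ∉ S → InU c y)) ∧
    coin (US b ∩ US c) < ε

/-- The set `S` of reals has measure zero in `N`: it is covered by open sets of arbitrarily
small measure coded in `N`. -/
def Null (N : Set ZFSet.{u}) (S : Set ZFSet.{u}) : Prop := ∀ ε : ENNReal, 0 < ε →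
  ∃ b ∈ N, b ⊆ Str ∧ coin (US b) < ε ∧ ∀ y ∈ S, InU b y

/-- `GP(all)` fails in `N` (with countable sections, and a relation covering everything). -/
def NotGP (N : Set ZFSet.{u}) : Prop := ∃ A ∈ N,
  (∀ t ∈ A, ∃ x y, t = pair x y ∧ IsFunc ZFSet.omega ZFSet.omega x ∧ y ⊆ ZFSet.omega) ∧
  (∀ x x' y, pair x y ∈ A → x' ∈ N → IsFunc ZFSet.omega ZFSet.omega x' → LeF x x' →
    pair x' y ∈ A) ∧
  (∀ x ∈ N, IsFunc ZFSet.omega ZFSet.omega x → Null N {y | pair x y ∈ A}) ∧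
  (∀ y ∈ N, y ⊆ ZFSet.omega → ∃ x, pair x y ∈ A) ∧
  ¬ Null N {y | ∃ x, pair x y ∈ A}

/-- The final statement. -/
def Goal : Prop := ∃ N : Set ZFSet.{1}, N.Countable ∧ IsZF N ∅ ∧ ACwR N ∧
  (∀ S ∈ N, (∀ y ∈ S, y ⊆ ZFSet.omega) → Measb N S) ∧ NotGP N

end Pool.Agent.Helper66.GP
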