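import Pool.Agent.Helper66.GP.Defs
import Pool.Agent.Helper66.SC.FB5
import Pool.Agent.Helper66.SC.FB2a
import Pool.Agent.Helper66.SC.FB3
import Pool.Agent.Helper25.SC.FB0
import Pool.Agent.Helper25.SC.FB4
import Pool.Agent.Helper27.SC.FB1
import Pool.Agent.Helper91.SC.FB2

/-! # Kit: basic forcing theorems in semantic form -/

universe u

namespace Pool.Agent.Helper66.GP

open ZFSet Pool.Agent.Helper66.SC Pool.Agent.Helper22.SC

theorem FB0 : ST_FB0.{u} := Pool.Agent.Helper25.SC.st_FB0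
theorem FB1 : ST_FB1.{u} := Pool.Agent.Helper27.SC.st_FB1
theorem FB1e : ST_FB1e.{u} := Pool.Agent.Helper27.SC.st_FB1e
theorem FB2a : ST_FB2a.{u} := st_FB2a
theorem FB3 : ST_FB3.{u} := st_FB3
theorem FB2 : ST_FB2.{u} := Pool.Agent.Helper91.SC.st_FB2 FB3 FB2a
theorem FB4 : ST_FB4.{u} := Pool.Agent.Helper25.SC.st_FB4 FB1 FB2 FB3
theorem FB5 : ST_FB5.{u} := fb5_of FB1 FB4

theorem ext_countable {M : Set ZFSet.{u}} (h : M.Countable) (G : ZFSet.{u}) :
    (Ext M G).Countable := by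
  refine (h.image (val G)).mono ?_
  rintro x ⟨τ, hτ, rfl⟩
  exact ⟨τ, hτ, rfl⟩

/-- KE. -/
theorem st_KE : ST_KE.{u} := fun M P G hM hP hG =>
  ⟨ext_countable hM.ctb G, FB4 M P G hM.zf hP hG, FB5 M P G hM.zf hP hG hM.wo⟩

theorem sub_ext {M : Set ZFSet.{u}} {P G : ZFSet.{u}} (hM : Ctm M) (hP : P ∈ M)
    (hG : IsGeneric M P G) {x : ZFSet.{u}} (hx : x ∈ M) : x ∈ Ext M G :=
  (FB1 M ∅ P G hM.zf hP hG).1 x hx

theorem gen_mem_ext {M : Set ZFSet.{u}} {P G : ZFSet.{u}} (hM : Ctm M) (hP : P ∈ M)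
    (hG : IsGeneric M P G) : G ∈ Ext M G := (FB1 M ∅ P G hM.zf hP hG).2.1

theorem ext_ord {M : Set ZFSet.{u}} {P G : ZFSet.{u}} (hM : Ctm M) (hP : P ∈ M)
    (hG : IsGeneric M P G) (o : Ordinal.{u}) : oz o ∈ Ext M G ↔ oz o ∈ M :=
  (FB1 M ∅ P G hM.zf hP hG).2.2.2.1 o

theorem val_chk' {M : Set ZFSet.{u}} {P G : ZFSet.{u}} (hM : Ctm M) (hP : P ∈ M)
    (hG : IsGeneric M P G) {x : ZFSet.{u}} (hx : x ∈ M) : val G (chk x) = x :=
  ((FB1 M ∅ P G hM.zf hP hG).2.2.2.2 x hx).2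

theorem chk_mem {M : Set ZFSet.{u}} (hM : IsZF M ∅) {x : ZFSet.{u}} (hx : x ∈ M) :
    chk x ∈ M := Pool.Agent.Helper27.SC.chk_memM hM hx

/-- `M[G]` is the least model containing `M` and `G`. -/
theorem ext_le {M K : Set ZFSet.{u}} {G : ZFSet.{u}} (hK : Ctm K) (h : ∀ x ∈ M, x ∈ K)
    (hG : G ∈ K) : Ext M G ⊆ K := FB1e M K ∅ G hK.zf h hG

/-- generic filters containing a given condition exist. -/
theorem exists_generic {M : Set ZFSet.{u}} {P : ZFSet.{u}} (hM : Ctm M) (hP : P ∈ M)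
    (h0 : ∅ ∈ P) {p : ZFSet.{u}} (hp : p ∈ P) : ∃ G, IsGeneric M P G ∧ p ∈ G :=
  FB0 M P hM.ctb hP h0 hM.zf.trans p hp

/-- KT. -/
theorem st_KT : ST_KT.{u} := by
  intro M P G hM hP hG k φ v hv h
  obtain ⟨p, hp, hf⟩ := (FB2 M ∅ P G hM.zf hP hG k φ v hv).1 h
  exact ⟨p, hp, fun G' hG' hp' => (FB2 M ∅ P G' hM.zf hP hG' k φ v hv).2 ⟨p, hp', hf⟩⟩

/-- Syntactic and semantic forcing agree. -/
theorem forces_iff {M : Set ZFSet.{u}} {P : ZFSet.{u}} (hM : Ctm M) (hP : P ∈ M) (h0 : ∅ ∈ P)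
    {k : ℕ} (φ : Fml k) (v : Fin k → ZFSet.{u}) (hv : ∀ i, v i ∈ M) {p : ZFSet.{u}}
    (hp : p ∈ P) : Forces M P φ v p ↔ ∀ G, IsGeneric M P G → p ∈ G →
      Sat (Ext M G) ∅ φ (fun i => val G (v i)) := by
  constructor
  · intro h G hG hpG
    exact (FB2 M ∅ P G hM.zf hP hG k φ v hv).2 ⟨p, hpG, h⟩
  · intro h
    refine (FB2a M P k φ v).2 p hp (fun q hq hpq => ?_)
    obtain ⟨G, hG, hqG⟩ := exists_generic hM hP h0 hq
    have hpG : p ∈ G := hG.up q hqG p hp hpq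
    obtain ⟨s, hs, hf⟩ := (FB2 M ∅ P G hM.zf hP hG k φ v hv).1 (h G hG hpG)
    obtain ⟨r, hr, hqr, hsr⟩ := hG.dir q hqG s hs
    exact ⟨r, hG.sub hr, hqr, (FB2a M P k φ v).1 s (hG.sub hs) r (hG.sub hr) hsr hf⟩

/-- KD. -/
theorem st_KD : ST_KD.{u} := by
  intro M P hM hP h0 k φ v hv b hb
  have h3 : URel KZ.{u} (fun M _ (w : Fin (k + 1 + 2) → ZFSet.{u}) =>
      Forces M (w 1) φ (Fin.tail (Fin.tail w)) (w 0)) := by
    have := (ud_iff (C := KZ.{u})).1 (show UD KZ.{u} (k := k + 1 + 2) (fun M _ w =>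
      Forces M (w 1) φ (Fin.tail (Fin.tail w)) (w 0)) from FB3 (k + 1) φ)
    exact this
  -- context: ((b, P), v)
  have hU : U KZ.{u} (fun M _ (a : (ZFSet.{u} × ZFSet.{u}) × (Fin k → ZFSet.{u})) =>
      ZFSet.sep (fun z => Forces M a.1.2 φ (Fin.cons (chk (pfst z)) a.2) (psnd z))
        (a.1.1.prod a.1.2)) := by
    refine U.sep (R := fun M _ (a : (ZFSet.{u} × ZFSet.{u}) × (Fin k → ZFSet.{u})) z =>
      Forces M a.1.2 φ (Fin.cons (chk (pfst z)) a.2) (psnd z)) ?_ ?_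
    · apply_rules (transparency := .reducible) (maxDepth := 400) using is_poly
    · have hf : U KZ.{u} (fun _ _ (q : ((ZFSet.{u} × ZFSet.{u}) × (Fin k → ZFSet.{u})) ×
          ZFSet.{u}) => (Fin.cons (psnd q.2) (Fin.cons q.1.1.2 (Fin.cons (chk (pfst q.2))
            q.1.2)) : Fin (k + 1 + 2) → ZFSet.{u})) := by
        refine U.finCons (U.psnd U.id.snd) (U.finCons U.id.fst.fst.snd (U.finCons ?_
          U.id.fst.snd))
        exact Pool.Agent.Helper27.SC.u_chk (U.pfst U.id.snd)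
      exact h3.comp hf
  have hD := hU.closed hM.zf (a := ((b, P), v)) (by simp [hb, hP]; exact hv)
  refine ⟨_, by simpa using hD, fun x hx p hp => ?_⟩
  have hxM : x ∈ M := hM.zf.trans b hb x hx
  have hcx := chk_mem hM.zf hxM
  have hcv : ∀ i, (Fin.cons (chk x) v : Fin (k + 1) → ZFSet.{u}) i ∈ M := by
    intro i
    refine Fin.cases ?_ (fun j => ?_) i
    · exact hcx
    · exact hv j
  rw [ZFSet.mem_sep, pfst_pair, psnd_pair, forces_iff hM hP h0 φ _ hcv hp]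
  have key : ∀ G, IsGeneric M P G → (fun i => val G ((Fin.cons (chk x) v :
      Fin (k + 1) → ZFSet.{u}) i)) = Fin.cons x (fun i => val G (v i)) := by
    intro G hG
    funext i
    refine Fin.cases ?_ (fun j => ?_) i
    · exact val_chk' hM hP hG hxM
    · rfl
  constructor
  · rintro ⟨_, h⟩ G hG hpG
    have := h G hG hpG
    rwa [key G hG] at this
  · intro h
    refine ⟨pair_mem_prod.2 ⟨hx, hp⟩, fun G hG hpG => ?_⟩
    rw [key G hG]
    exact h G hG hpG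

/-- KS. -/
theorem st_KS : ST_KS.{u} := by
  intro M P G hM hP hG b hb
  have hE := st_KE M P G hM hP hG
  have hev : U KZ.{u} (fun _ _ (a : (ZFSet.{u} × ZFSet.{u}) × ZFSet.{u}) =>
      ev a.1.1 a.1.2 a.2) := by
    unfold ev
    apply_rules (transparency := .reducible) (maxDepth := 400) using is_poly
  refine ⟨fun σ hσ => ?_, fun x hx hxb => ?_⟩
  · have := hev.closed hE.zf (a := ((b, σ), G)) (by
      simp [sub_ext hM hP hG hb, sub_ext hM hP hG hσ, gen_mem_ext hM hP hG])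
    simpa using this
  · obtain ⟨τ, hτ, rfl⟩ := hx
    have h0 : ∅ ∈ P := hG.sub hG.top
    obtain ⟨D, hD, hD'⟩ := st_KD M P hM hP h0 1 (.mem 0 1) (fun _ => τ) (fun _ => hτ) b hb
    refine ⟨ZFSet.sep (fun z => z ∈ D) (b.prod P), ?_, ?_, ?_⟩
    · have h : U KZ.{u} (fun _ _ (a : (ZFSet.{u} × ZFSet.{u}) × ZFSet.{u}) =>
          ZFSet.sep (fun z => z ∈ a.2) (a.1.1.prod a.1.2)) := by
        apply_rules (transparency := .reducible) (maxDepth := 400) using is_poly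
      have := h.closed hM.zf (a := ((b, P), D)) (by simp [hb, hP, hD])
      simpa using this
    · intro z hz
      exact (ZFSet.mem_sep.1 hz).1
    · ext s
      unfold ev
      rw [ZFSet.mem_sep]
      constructor
      · intro hs
        have hsb := hxb hs
        refine ⟨hsb, ?_⟩
        have hsM := hM.zf.trans b hb s hsb
        have hv : ∀ i, (![chk s, τ] : Fin 2 → ZFSet.{u}) i ∈ M := by
          intro i
          fin_cases i
          · exact chk_mem hM.zf hsM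
          · exact hτ
        obtain ⟨p, hp, h⟩ := st_KT M P G hM hP hG 2 (.mem 0 1) ![chk s, τ] hv (by
          change val G (chk s) ∈ val G τ
          rwa [val_chk' hM hP hG hsM])
        refine ⟨p, hp, ZFSet.mem_sep.2 ⟨pair_mem_prod.2 ⟨hsb, hG.sub hp⟩, ?_⟩⟩
        refine (hD' s hsb p (hG.sub hp)).2 (fun G' hG' hp' => ?_)
        have := h G' hG' hp'
        change val G' (chk s) ∈ val G' τ at this
        rw [val_chk' hM hP hG' hsM] at this
        exact this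
      · rintro ⟨hsb, p, hp, hz⟩
        have h := (hD' s hsb p (hG.sub hp)).1 (ZFSet.mem_sep.1 hz).2 G hG hp
        exact h

end Pool.Agent.Helper66.GP
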