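import Pool.Agent.Helper66.GP.Kit

/-! # PP: the product lemma for pairs of posets -/

universe u

namespace Pool.Agent.Helper66.GP

open ZFSet Pool.Agent.Helper66.SC Pool.Agent.Helper22.SC

section
variable {M : Set ZFSet.{u}} {P Q F K : ZFSet.{u}}

theorem pp_left (hM : Ctm M) (hP : P ∈ M) (hF : IsGeneric M P F)
    (hK : IsGeneric (Ext M F) Q K) : IsGeneric M Q K :=
  ⟨hK.sub, hK.top, hK.up, hK.dir, fun D hD hDQ hd => hK.meets D (sub_ext hM hP hF hD) hDQ hd⟩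

theorem pp_pairs (hM : Ctm M) (hP : P ∈ M) (hQ : Q ∈ M) (hF : IsGeneric M P F)
    (hK : IsGeneric (Ext M F) Q K) {D : ZFSet.{u}} (hD : D ∈ M)
    (hd : ∀ p ∈ P, ∀ q ∈ Q, ∃ p' ∈ P, ∃ q' ∈ Q, p ⊆ p' ∧ q ⊆ q' ∧ pair p' q' ∈ D) :
    ∃ p ∈ F, ∃ q ∈ K, pair p q ∈ D := by
  have hE := st_KE M P F hM hP hF
  have h1 : ZFSet.sep (fun q => ∃ p ∈ F, pair p q ∈ D) Q ∈ Ext M F := by
    have h : U KZ.{u} (fun _ _ (a : (ZFSet.{u} × ZFSet.{u}) × ZFSet.{u}) =>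
        ZFSet.sep (fun q => ∃ p ∈ a.1.2, pair p q ∈ a.2) a.1.1) := by
      apply_rules (transparency := .reducible) (maxDepth := 400) using is_poly
    have := h.closed hE.zf (a := ((Q, F), D)) (by
      simp [sub_ext hM hP hF hQ, sub_ext hM hP hF hD, gen_mem_ext hM hP hF])
    simpa using this
  obtain ⟨q, hq, hq'⟩ := hK.meets _ h1 (fun q hq => (ZFSet.mem_sep.1 hq).1) (by
    intro q₀ hq₀
    have h2 : ZFSet.sep (fun p => ∃ q ∈ Q, q₀ ⊆ q ∧ pair p q ∈ D) P ∈ M := by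
      have h : U KZ.{u} (fun _ _ (a : ((ZFSet.{u} × ZFSet.{u}) × ZFSet.{u}) × ZFSet.{u}) =>
          ZFSet.sep (fun p => ∃ q ∈ a.1.1.2, a.2 ⊆ q ∧ pair p q ∈ a.1.2) a.1.1.1) := by
        apply_rules (transparency := .reducible) (maxDepth := 400) using is_poly
      have := h.closed hM.zf (a := (((P, Q), D), q₀)) (by
        simp [hP, hQ, hD, hM.zf.trans Q hQ q₀ hq₀])
      simpa using this
    obtain ⟨p, hp, hp'⟩ := hF.meets _ h2 (fun p hp => (ZFSet.mem_sep.1 hp).1) (by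
      intro p hp
      obtain ⟨p', hp', q', hq', h1, h2, h3⟩ := hd p hp q₀ hq₀
      exact ⟨p', ZFSet.mem_sep.2 ⟨hp', q', hq', h2, h3⟩, h1⟩)
    obtain ⟨_, q, hq, h3, h4⟩ := ZFSet.mem_sep.1 hp'
    exact ⟨q, ZFSet.mem_sep.2 ⟨hq, p, hp, h4⟩, h3⟩)
  obtain ⟨_, p, hp, h⟩ := ZFSet.mem_sep.1 hq'
  exact ⟨p, hp, q, hq, h⟩

theorem pp_right (hM : Ctm M) (hP : P ∈ M) (hQ : Q ∈ M) (hF : IsGeneric M P F)
    (hK : IsGeneric (Ext M F) Q K) : IsGeneric (Ext M K) P F := by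
  have hK' := pp_left hM hP hF hK
  refine ⟨hF.sub, hF.top, hF.up, hF.dir, fun D hD hDP hd => ?_⟩
  obtain ⟨δ, hδ, rfl⟩ := hD
  have h0 : ∅ ∈ Q := hK.sub hK.top
  -- some condition forces density
  have hrel : URel KZ.{u} (fun _ _ (a : ZFSet.{u} × ZFSet.{u}) =>
      ∀ p ∈ a.1, ∃ r ∈ a.2, r ∈ a.1 ∧ p ⊆ r) := by
    apply_rules (transparency := .reducible) (maxDepth := 400) using is_poly
  obtain ⟨φ, hφ⟩ := (ud2_iff (C := KZ.{u}) (R := fun _ _ x y => ∀ p ∈ x, ∃ r ∈ y,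
    r ∈ x ∧ p ⊆ r)).2 hrel
  have hv : ∀ i, (![chk P, δ] : Fin 2 → ZFSet.{u}) i ∈ M := by
    intro i
    fin_cases i
    · exact chk_mem hM.zf hP
    · exact hδ
  have hval : ∀ K', IsGeneric M Q K' → (fun i => val K' ((![chk P, δ] : Fin 2 → ZFSet.{u}) i)) =
      ![P, val K' δ] := by
    intro K' hK'
    funext i
    fin_cases i
    · exact val_chk' hM hQ hK' hP
    · rfl
  have key : ∀ K', IsGeneric M Q K' → (Sat (Ext M K') ∅ φ (fun i => val K'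
      ((![chk P, δ] : Fin 2 → ZFSet.{u}) i)) ↔ ∀ p ∈ P, ∃ r ∈ val K' δ, r ∈ P ∧ p ⊆ r) := by
    intro K' hK'
    rw [hval K' hK']
    have hE := st_KE M Q K' hM hQ hK'
    refine hφ (Ext M K') ∅ hE.zf ![P, val K' δ] (fun i => ?_)
    fin_cases i
    · exact sub_ext hM hQ hK' hP
    · exact ⟨δ, hδ, rfl⟩
  obtain ⟨q₀, hq₀, hf⟩ := st_KT M Q K hM hQ hK' 2 φ ![chk P, δ] hv ((key K hK').2 (fun p hp => by
      obtain ⟨r, hr, h⟩ := hd p hp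
      exact ⟨r, hr, hDP hr, h⟩))
  obtain ⟨D₀, hD₀, hD₀'⟩ := st_KD M Q hM hQ h0 1 (.mem 0 1) (fun _ => δ) (fun _ => hδ) P hP
  have h1 : ZFSet.sep (fun z => z ∈ D₀ ∨ ¬ ∃ r ∈ Q, psnd z ⊆ r ∧ q₀ ⊆ r) (P.prod Q) ∈ M := by
    have h : U KZ.{u} (fun _ _ (a : ((ZFSet.{u} × ZFSet.{u}) × ZFSet.{u}) × ZFSet.{u}) =>
        ZFSet.sep (fun z => z ∈ a.1.2 ∨ ¬ ∃ r ∈ a.1.1.2, psnd z ⊆ r ∧ a.2 ⊆ r)
          (a.1.1.1.prod a.1.1.2)) := by
      apply_rules (transparency := .reducible) (maxDepth := 400) using is_poly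
    have := h.closed hM.zf (a := (((P, Q), D₀), q₀)) (by
      simp [hP, hQ, hD₀, hM.zf.trans Q hQ q₀ (hK.sub hq₀)])
    simpa using this
  obtain ⟨p, hp, q, hq, hpq⟩ := pp_pairs hM hP hQ hF hK h1 (by
    intro p hp q hq
    by_cases hc : ∃ r ∈ Q, q ⊆ r ∧ q₀ ⊆ r
    · obtain ⟨r, hr, hqr, hq₀r⟩ := hc
      obtain ⟨K', hK', hrK'⟩ := exists_generic hM hQ h0 hr
      have hq₀K' : q₀ ∈ K' := hK'.up r hrK' q₀ (hK.sub hq₀) hq₀r
      obtain ⟨s, hs, hsP, hps⟩ := (key K' hK').1 (hf K' hK' hq₀K') p hp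
      have hsM := hM.zf.trans P hP s hsP
      have hv' : ∀ i, (![chk s, δ] : Fin 2 → ZFSet.{u}) i ∈ M := by
        intro i
        fin_cases i
        · exact chk_mem hM.zf hsM
        · exact hδ
      obtain ⟨q₁, hq₁, h⟩ := st_KT M Q K' hM hQ hK' 2 (.mem 0 1) ![chk s, δ] hv' (by
        change val K' (chk s) ∈ val K' δ
        rwa [val_chk' hM hQ hK' hsM])
      obtain ⟨q₂, hq₂, hrq₂, hq₁q₂⟩ := hK'.dir r hrK' q₁ hq₁
      refine ⟨s, hsP, q₂, hK'.sub hq₂, hps, hqr.trans hrq₂, ?_⟩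
      refine ZFSet.mem_sep.2 ⟨pair_mem_prod.2 ⟨hsP, hK'.sub hq₂⟩, Or.inl ?_⟩
      refine (hD₀' s hsP q₂ (hK'.sub hq₂)).2 (fun K'' hK'' hq₂' => ?_)
      have := h K'' hK'' (hK''.up q₂ hq₂' q₁ (hK'.sub hq₁) hq₁q₂)
      change val K'' (chk s) ∈ val K'' δ at this
      rwa [val_chk' hM hQ hK'' hsM] at this
    · exact ⟨p, hp, q, hq, fun _ h => h, fun _ h => h,
        ZFSet.mem_sep.2 ⟨pair_mem_prod.2 ⟨hp, hq⟩, Or.inr (by rwa [psnd_pair])⟩⟩)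
  obtain ⟨_, hz | hz⟩ := ZFSet.mem_sep.1 hpq
  · exact ⟨p, hp, (hD₀' p (hF.sub hp) q (hK'.sub hq)).1 hz K hK' hq⟩
  · exfalso
    rw [psnd_pair] at hz
    obtain ⟨r, hr, h1, h2⟩ := hK'.dir q hq q₀ hq₀
    exact hz ⟨r, hK'.sub hr, h1, h2⟩

theorem pp_ext (hM : Ctm M) (hP : P ∈ M) (hQ : Q ∈ M) (hF : IsGeneric M P F)
    (hK : IsGeneric (Ext M F) Q K) : Ext (Ext M F) K = Ext (Ext M K) F := by
  have hK' := pp_left hM hP hF hK
  have hF' := pp_right hM hP hQ hF hK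
  have hMF := st_KE M P F hM hP hF
  have hMK := st_KE M Q K hM hQ hK'
  have hPK := sub_ext hM hQ hK' hP
  have hQF := sub_ext hM hP hF hQ
  have h1 := st_KE _ Q K hMF hQF hK
  have h2 := st_KE _ P F hMK hPK hF'
  apply Set.Subset.antisymm
  · refine ext_le h2 (fun x hx => ?_) (sub_ext hMK hPK hF' (gen_mem_ext hM hQ hK'))
    exact ext_le h2 (fun y hy => sub_ext hMK hPK hF' (sub_ext hM hQ hK' hy))
      (gen_mem_ext hMK hPK hF') hx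
  · refine ext_le h1 (fun x hx => ?_) (sub_ext hMF hQF hK (gen_mem_ext hM hP hF))
    exact ext_le h1 (fun y hy => sub_ext hMF hQF hK (sub_ext hM hP hF hy))
      (gen_mem_ext hMF hQF hK) hx

end

/-- PP. -/
theorem st_PP : ST_PP.{u} := fun _ _ _ _ _ hM hP hQ hF hK =>
  ⟨pp_left hM hP hF hK, pp_right hM hP hQ hF hK, pp_ext hM hP hQ hF hK,
    fun _ hD _ hd => pp_pairs hM hP hQ hF hK hD hd⟩

end Pool.Agent.Helper66.GP
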