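import Pool.Agent.Helper44.GP.P2
import Pool.Agent.Helper37.GP.DE
import Pool.Agent.Helper66.GP.Defs

/-! # FINAL, part 1: the failure of `GP(all)` in the inner model -/

universe u

namespace Pool.Agent.Helper66.GP

open ZFSet MeasureTheory Pool.Agent.Helper66.SC Pool.Agent.Helper22.SC
open Pool.Agent.Helper76.GP (mem_Rl FF_VO omega_VO VO_mem)

theorem z_par_sub (c : ZFSet.{u}) : par c ⊆ ZFSet.omega := fun _ h => (ZFSet.mem_sep.1 h).1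

theorem z_par_mem {M : Set ZFSet.{u}} (hP1 : ST_P1.{u}) (hM : IsZF M ∅) {c : ZFSet.{u}}
    (hc : c ∈ M) : par c ∈ M := by
  have := hP1.2.2.2.2.1.closed hM (a := c) (in_zfset.2 hc)
  exact in_zfset.1 this

/-- A set of `W` is in `N` when it is a real, if the reals of `N` are those of `W`. -/
theorem z_real {W W2 N : Set ZFSet.{u}} (hN : IsZF N ∅) (hWW : W ⊆ W2) (hX : Rl W2 ∈ N)
    {b : ZFSet.{u}} (hb : b ∈ W) (hbV : b ⊆ VO) : b ∈ N :=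
  hN.trans _ hX b (mem_Rl.2 ⟨hbV, hWW hb⟩)

theorem z_Str_VO : Str.{u} ⊆ VO := fun _ h => (ZFSet.mem_sep.1 h).1

/-- The failure of `GP(all)`. -/
theorem z_notGP (hP1 : ST_P1.{u}) (hP4 : ST_P4.{u}) (hP5 : ST_P5.{u}) (hFC : ST_FC.{u})
    (hFD : ST_FD.{u}) {W N : Set ZFSet.{u}} {H : ZFSet.{u}} (hW : Ctm W)
    (hH : IsGeneric W (PG W) H) (hN : IsZF N ∅) (hNW : N ⊆ Ext W H) (hX : Rl (Ext W H) ∈ N)
    (hA : AR (Ext W H) H ∈ N) : NotGP N := by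
  obtain ⟨hPW, h0, hPG⟩ := hP1.2.2.2.2.2.2.2.2.2 W ∅ hW.zf
  have hWW : W ⊆ Ext W H := fun x hx => sub_ext hW hPW hH hx
  obtain ⟨q1, q2, q3, q4⟩ := hP5 W H hW hH
  have hreal : ∀ x ∈ N, x ⊆ VO → x ∈ W := fun x hx hxV => hP4 W H hW hH x (hNW hx) hxV
  -- membership in the relation
  have hmem : ∀ x y, pair x y ∈ AR (Ext W H) H ↔ x ∈ Ext W H ∧ FF x ∧
      ∃ c ∈ CP (ZFSet.sUnion H), LeF c x ∧ y = par c := by
    intro x y
    unfold AR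
    rw [ZFSet.mem_sep, pair_mem_prod]
    constructor
    · rintro ⟨⟨hx, _⟩, c, hc, x', hx', hl, he⟩
      obtain ⟨e1, e2⟩ := pair_inj.1 he
      subst e1
      exact ⟨(mem_Rl.1 hx).2, hx', c, hc, hl, e2⟩
    · rintro ⟨hx, hxF, c, hc, hl, rfl⟩
      refine ⟨⟨mem_Rl.2 ⟨FF_VO hxF, hx⟩, mem_Rl.2 ⟨(z_par_sub c).trans omega_VO, ?_⟩⟩, c, hc, x,
        hxF, hl, rfl⟩
      exact hWW (z_par_mem hP1 hW.zf (q1 c hc).2)
  have hcov : ∀ y ∈ N, y ⊆ ZFSet.omega → ∃ x, pair x y ∈ AR (Ext W H) H := by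
    intro y hy hyo
    obtain ⟨c, hc, he⟩ := q4 y (hreal y hy (hyo.trans omega_VO)) hyo
    obtain ⟨hcF, hcW⟩ := q1 c hc
    refine ⟨c, (hmem c y).2 ⟨hWW hcW, hcF, c, hc, ?_, he.symm⟩⟩
    intro n m m' hm hm'
    have hn : n ∈ ZFSet.omega := (pair_mem_prod.1 (hcF.1 hm)).1
    rw [(hcF.2 n hn).unique hm hm']
  refine ⟨AR (Ext W H) H, hA, ?_, ?_, ?_, hcov, ?_⟩
  · intro t ht
    obtain ⟨_, c, hc, x, hx, _, he⟩ := ZFSet.mem_sep.1 ht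
    exact ⟨x, par c, he, hx, z_par_sub c⟩
  · intro x x' y hxy hx' hx'F hl
    obtain ⟨hx, hxF, c, hc, hcl, he⟩ := (hmem x y).1 hxy
    exact (hmem x' y).2 ⟨hNW hx', hx'F, c, hc, de_LeF_trans (q1 c hc).1 hxF hcl hl, he⟩
  · intro x hx hxF ε hε
    have hxW : x ∈ W := hreal x hx (FF_VO hxF)
    obtain ⟨s, hs, hsc, hs'⟩ := q2 x hxW hxF
    have hu1 : im s par ∈ W := by
      have := (show U KZ.{u} (fun _ _ (s : ZFSet.{u}) => Helper66.SC.img s par) from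
        U.img U.id (hP1.2.2.2.2.1.comp U.id.snd)).closed hW.zf (a := s) (in_zfset.2 hs)
      exact in_zfset.1 this
    have hu2 : Helper22.SC.gr s par ∈ W := by
      have := (show U KZ.{u} (fun _ _ (s : ZFSet.{u}) => Helper22.SC.gr s par) from
        U.gr U.id (hP1.2.2.2.2.1.comp U.id.snd)).closed hW.zf (a := s) (in_zfset.2 hs)
      exact in_zfset.1 this
    have hcnt := Helper44.GP.cnt_img hW.zf hs hsc hu1 hu2
    obtain ⟨b, hb, hbS, hbc, hb'⟩ := hFC W _ hW.zf hu1 hcnt ε hε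
    refine ⟨b, z_real hN hWW hX hb (hbS.trans z_Str_VO), hbS, hbc, ?_⟩
    intro y hy
    obtain ⟨_, _, c, hc, hcl, rfl⟩ := (hmem x y).1 hy
    refine hb' _ ?_ (z_par_sub c)
    exact mem_img.2 ⟨c, (hs' c).2 ⟨hc, hcl⟩, rfl⟩
  · intro hn
    obtain ⟨b, hb, hbS, hbc, hb'⟩ := hn 1 one_pos
    obtain ⟨y, hy, hyo, hyb⟩ := hFD N b hN hb hbS hbc
    exact hyb (hb' y (hcov y hy hyo))

end Pool.Agent.Helper66.GP
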