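import Pool.Agent.Helper66.GP.Z1
import Pool.Agent.Helper22.GP.DF

/-! # FINAL, part 2: substitution, deciding sets of random conditions, coding of tuples -/

universe u

namespace Pool.Agent.Helper66.GP

open ZFSet MeasureTheory Pool.Agent.Helper66.SC Pool.Agent.Helper22.SC
open Pool.Agent.Helper76.GP (mem_Rl FF_VO omega_VO VO_mem pair_VO empty_VO one_VO)
open Pool.Agent.Helper22.GP (cc cc_RB InU_cc)

theorem z_one_VO : ({∅} : ZFSet.{u}) ∈ VO := by
  refine Helper76.GP.finite_VO (fun x hx => ?_) ?_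
  · rw [ZFSet.mem_singleton.1 hx]
    exact empty_VO
  · refine (Set.finite_singleton (∅ : ZFSet.{u})).subset ?_
    intro x hx
    exact ZFSet.mem_singleton.1 hx

theorem z_ne : (∅ : ZFSet.{u}) ≠ {∅} := by
  intro h
  have h2 : (∅ : ZFSet.{u}) ∈ ({∅} : ZFSet.{u}) := ZFSet.mem_singleton.2 rfl
  have h3 : (∅ : ZFSet.{u}) ∈ (∅ : ZFSet.{u}) := Eq.mp (congrArg (fun w => ∅ ∈ w) h.symm) h2
  exact ZFSet.notMem_empty _ h3

/-- Satisfaction of a formula is a uniform relation. -/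
theorem z_urel {k : ℕ} (φ : Fml k) : URel KZ.{u} (fun N A (w : Fin k → ZFSet.{u}) =>
    Sat N A φ w) := ⟨φ, fun _ _ _ _ _ => Iff.rfl⟩

theorem z_formula {k : ℕ} {R : Set ZFSet.{u} → Set ZFSet.{u} → (Fin k → ZFSet.{u}) → Prop}
    (h : URel KZ.{u} R) : ∃ φ : Fml k, ∀ (N : Set ZFSet.{u}), IsZF N ∅ →
      ∀ w : Fin k → ZFSet.{u}, (∀ i, w i ∈ N) → (Sat N ∅ φ w ↔ R N ∅ w) := by
  obtain ⟨φ, hφ⟩ := h
  exact ⟨φ, fun N hN w hw => (hφ N ∅ hN w (in_fin.2 hw)).symm⟩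

theorem z_cons {N : Set ZFSet.{u}} {k : ℕ} {x : ZFSet.{u}} {v : Fin k → ZFSet.{u}}
    (hx : x ∈ N) (hv : ∀ i, v i ∈ N) : ∀ i, (Fin.cons x v : Fin (k + 1) → ZFSet.{u}) i ∈ N := by
  intro i
  refine Fin.cases ?_ (fun j => ?_) i
  · exact hx
  · exact hv j

/-- Substitution of the reals and the relation. -/
theorem z_sub (hP1 : ST_P1.{u}) {k : ℕ} (φ : Fml (k + 3)) : ∃ φ' : Fml (k + 2),
    ∀ N : Set ZFSet.{u}, IsZF N ∅ → ∀ H ∈ N, ∀ y ∈ N, ∀ v : Fin k → ZFSet.{u},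
      (∀ i, v i ∈ N) → (Sat N ∅ φ' (Fin.cons H (Fin.cons y v)) ↔
        Sat N ∅ φ (Fin.cons y (Fin.cons (Rl N) (Fin.cons (AR N H) v)))) := by
  obtain ⟨φ', h⟩ := z_formula (k := k + 2) (R := fun N A w => Sat N A φ
    (Fin.cons (w 1) (Fin.cons (Rl N) (Fin.cons (AR N (w 0)) (fun i => w i.succ.succ))))) (by
      refine (z_urel φ).comp (f := fun N _ (w : Fin (k + 2) → ZFSet.{u}) =>
        (Fin.cons (w 1) (Fin.cons (Rl N) (Fin.cons (AR N (w 0)) (fun i => w i.succ.succ))) :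
          Fin (k + 3) → ZFSet.{u})) ?_
      refine U.finCons (U.id.eval 1) (U.finCons (hP1.2.1.comp U.unit) (U.finCons
        (hP1.2.2.2.2.2.1.comp (U.id.eval 0)) (U.finMk (fun i => ?_))))
      exact U.id.eval i.succ.succ)
  refine ⟨φ', fun N hN H hH y hy v hv => ?_⟩
  rw [h N hN _ (z_cons hH (z_cons hy hv))]
  rfl

/-- The real of a filter. -/
noncomputable def YF (F : ZFSet.{u}) : ZFSet.{u} :=
  ZFSet.sep (fun n => ∃ t ∈ VO, t ⊆ insert n n ∧ n ∈ t ∧
    ¬ satu {pair (insert n n) t} ∈ F) ZFSet.omega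

theorem u_YF : U KZ.{u} (fun _ _ (F : ZFSet.{u}) => YF F) := by
  unfold YF
  apply_rules (transparency := .reducible) (maxDepth := 400) using is_poly

theorem yF_eq {M : Set ZFSet.{u}} (hM : IsZF M ∅) {y : ZFSet.{u}} (hy : y ⊆ ZFSet.omega) :
    YF (Fy M y) = y := by
  ext k
  unfold YF
  rw [ZFSet.mem_sep]
  have key : ∀ (n : ℕ) (t : ZFSet.{u}), t ⊆ nz (n + 1) → (¬ cc (n + 1) t ∈ Fy M y ↔
      y ∩ nz (n + 1) = t) := by
    intro n t ht
    rw [← InU_cc ht hy]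
    unfold Fy
    rw [ZFSet.mem_sep]
    have := cc_RB hM ht
    tauto
  constructor
  · rintro ⟨hkω, t, _, ht, hkt, h3⟩
    obtain ⟨n, rfl⟩ := mem_omega.1 hkω
    rw [← nat_succ] at ht h3
    have h4 := (key n t ht).1 h3
    rw [← h4] at hkt
    exact (ZFSet.mem_inter.1 hkt).1
  · intro hk
    have hkω := hy hk
    refine ⟨hkω, ?_⟩
    obtain ⟨n, rfl⟩ := mem_omega.1 hkω
    have ht : y ∩ nz (n + 1) ⊆ nz (n + 1) := fun x hx => (ZFSet.mem_inter.1 hx).2
    refine ⟨y ∩ nz (n + 1), Helper76.GP.sub_VO ht (Helper76.GP.nz_VO _), ?_, ?_, ?_⟩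
    · rw [← nat_succ]
      exact ht
    · exact ZFSet.mem_inter.2 ⟨hk, Helper76.GP.nzm.2 (Nat.lt_succ_self n)⟩
    · rw [← nat_succ]
      exact (key n _ ht).2 rfl

/-- The set of random conditions which force a statement on the random real. -/
theorem z_dec {M : Set ZFSet.{u}} (hM : Ctm M) (hmu : MuR ∈ M) {k : ℕ} (ψ : Fml (k + 3))
    {κ p : ZFSet.{u}} (hκ : κ ∈ M) (hp : p ∈ M) {v : Fin k → ZFSet.{u}} (hv : ∀ i, v i ∈ M) :
    ∃ D ∈ M, D ⊆ RB M ∧
      (∀ b ∈ D, ∀ y, y ⊆ ZFSet.omega → IsGeneric M (RB M) (Fy M y) → b ∈ Fy M y →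
        Sat (Ext M (Fy M y)) ∅ ψ (Fin.cons κ (Fin.cons p (Fin.cons y v)))) ∧
      (∀ G, IsGeneric M (RB M) G → Sat (Ext M G) ∅ ψ (Fin.cons κ (Fin.cons p
        (Fin.cons (YF G) v))) → ∀ b ∈ G, ∃ c ∈ D, b ⊆ c) := by
  have hR := Helper76.GP.RB_mem hM.zf hmu
  have h0 : ∅ ∈ RB M := (Helper76.GP.st_MB.2.2.2.2 M ∅ hM.zf hmu).2
  obtain ⟨ψ', hψ⟩ := z_formula (k := k + 1 + 2 + 1) (R := fun N A w => Sat N A ψ
    (Fin.cons (w 2) (Fin.cons (w 3) (Fin.cons (YF (w 1))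
      (fun i : Fin k => w i.succ.succ.succ.succ))))) (by
      refine (z_urel ψ).comp (f := fun N _ (w : Fin (k + 1 + 2 + 1) → ZFSet.{u}) =>
        (Fin.cons (w 2) (Fin.cons (w 3) (Fin.cons (YF (w 1))
          (fun i : Fin k => w i.succ.succ.succ.succ))) : Fin (k + 3) → ZFSet.{u})) ?_
      refine U.finCons (U.id.eval 2) (U.finCons (U.id.eval 3) (U.finCons
        (u_YF.comp (U.id.eval 1)) (U.finMk (fun i => ?_))))
      exact U.id.eval i.succ.succ.succ.succ)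
  have hpv : ∀ i, (Fin.cons p v : Fin (k + 1) → ZFSet.{u}) i ∈ M := z_cons hp hv
  have hnm := de_nm_mem hM.zf hR hκ hpv
  have hkey : ∀ G, IsGeneric M (RB M) G → (Sat (Ext M G) ∅ ψ' (Fin.cons ∅
      (fun i => val G (de_nm (RB M) κ (Fin.cons p v : Fin (k + 1) → ZFSet.{u}) i))) ↔
      Sat (Ext M G) ∅ ψ (Fin.cons κ (Fin.cons p (Fin.cons (YF G) v)))) := by
    intro G hG
    have hE := st_KE M _ G hM hR hG
    have hs : ∀ x ∈ M, x ∈ Ext M G := fun x hx => sub_ext hM hR hG hx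
    rw [de_nm_val hM hR hκ hpv hG, hψ _ hE.zf]
    · rfl
    · exact z_cons hE.zf.empty_mem (z_cons (gen_mem_ext hM hR hG) (z_cons (hs _ hκ)
        (fun i => hs _ (hpv i))))
  have h1M : ({∅} : ZFSet.{u}) ∈ M := Helper76.GP.VO_mem' hM.zf _ z_one_VO
  obtain ⟨D, hD, hD'⟩ := st_KD M (RB M) hM hR h0 (k + 1 + 2) ψ'
    (de_nm (RB M) κ (Fin.cons p v : Fin (k + 1) → ZFSet.{u})) hnm {∅} h1M
  have hkD : ∀ q ∈ RB M, (pair ∅ q ∈ D ↔ ∀ G', IsGeneric M (RB M) G' → q ∈ G' →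
      Sat (Ext M G') ∅ ψ (Fin.cons κ (Fin.cons p (Fin.cons (YF G') v)))) := by
    intro q hq
    rw [hD' ∅ (ZFSet.mem_singleton.2 rfl) q hq]
    exact forall_congr' fun G' => forall_congr' fun hG' => forall_congr' fun _ => hkey G' hG'
  refine ⟨(RB M).sep (fun q => pair ∅ q ∈ D), ?_, fun x hx => (ZFSet.mem_sep.1 hx).1, ?_, ?_⟩
  · have hu : U KZ.{u} (fun _ _ (a : ZFSet.{u} × ZFSet.{u}) =>
        ZFSet.sep (fun q => pair ∅ q ∈ a.2) a.1) := by
      apply_rules (transparency := .reducible) (maxDepth := 400) using is_poly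
    have := hu.closed hM.zf (a := (RB M, D)) (by simp [hR, hD])
    simpa using this
  · intro b hb y hy hg hby
    obtain ⟨hbR, hbD⟩ := ZFSet.mem_sep.1 hb
    have := (hkD b hbR).1 hbD _ hg hby
    rwa [yF_eq hM.zf hy] at this
  · intro G hG hs b hb
    rw [← hkey G hG] at hs
    have hnv : ∀ i, (Fin.cons (chk ∅) (de_nm (RB M) κ (Fin.cons p v : Fin (k + 1) →
        ZFSet.{u})) : Fin (k + 1 + 2 + 1) → ZFSet.{u}) i ∈ M :=
      z_cons (chk_mem hM.zf hM.zf.empty_mem) hnm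
    have hval : ∀ G', IsGeneric M (RB M) G' → (fun i => val G' ((Fin.cons (chk ∅)
        (de_nm (RB M) κ (Fin.cons p v : Fin (k + 1) → ZFSet.{u})) :
          Fin (k + 1 + 2 + 1) → ZFSet.{u}) i)) = Fin.cons ∅ (fun i => val G'
            (de_nm (RB M) κ (Fin.cons p v : Fin (k + 1) → ZFSet.{u}) i)) := by
      intro G' hG'
      funext i
      refine Fin.cases ?_ (fun j => ?_) i
      · exact val_chk' hM hR hG' hM.zf.empty_mem
      · rfl
    rw [← hval G hG] at hs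
    obtain ⟨q, hq, hf⟩ := st_KT M (RB M) G hM hR hG _ ψ' _ hnv hs
    obtain ⟨r, hr, hqr, hbr⟩ := hG.dir q hq b hb
    refine ⟨r, ZFSet.mem_sep.2 ⟨hG.sub hr, (hkD r (hG.sub hr)).2 ?_⟩, hbr⟩
    intro G' hG' hr'
    have := hf G' hG' (hG'.up r hr' q (hG.sub hq) hqr)
    rw [hval G' hG', hkey G' hG'] at this
    exact this

/-- Coding a finite tuple of reals by one real. -/
theorem z_code {W : Set ZFSet.{u}} (hW : IsZF W ∅) : ∀ (n : ℕ) (v : Fin n → ZFSet.{u}),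
    (∀ i, v i ∈ Rl W) → ∃ c ∈ Rl W, ∀ M : Set ZFSet.{u}, IsZF M ∅ → c ∈ M → ∀ i, v i ∈ M := by
  intro n
  induction n with
  | zero =>
    intro v _
    exact ⟨∅, mem_Rl.2 ⟨fun x hx => absurd hx (ZFSet.notMem_empty x), hW.empty_mem⟩,
      fun M _ _ i => i.elim0⟩
  | succ n ih =>
    intro v hv
    obtain ⟨c, hc, hc'⟩ := ih (fun i => v i.succ) (fun i => hv i.succ)
    obtain ⟨hcV, hcW⟩ := mem_Rl.1 hc
    obtain ⟨hvV, hvW⟩ := mem_Rl.1 (hv 0)
    refine ⟨im (v 0) (fun z => pair ∅ z) ∪ im c (fun z => pair {∅} z), mem_Rl.2 ⟨?_, ?_⟩, ?_⟩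
    · intro x hx
      rcases ZFSet.mem_union.1 hx with h | h
      · obtain ⟨z, hz, rfl⟩ := mem_img.1 h
        exact pair_VO empty_VO (hvV hz)
      · obtain ⟨z, hz, rfl⟩ := mem_img.1 h
        exact pair_VO z_one_VO (hcV hz)
    · have hu : U KZ.{u} (fun _ _ (a : ZFSet.{u} × ZFSet.{u}) =>
          (Helper66.SC.img a.1 (fun z => pair ∅ z) ∪ Helper66.SC.img a.2 (fun z => pair {∅} z) :
            ZFSet.{u})) := by
        apply_rules (transparency := .reducible) (maxDepth := 400) using is_poly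
      have := hu.closed hW (a := (v 0, c)) (by simp [hvW, hcW])
      simpa using this
    · intro M hM hcM
      have h0 : v 0 ∈ M := by
        have hu : U KZ.{u} (fun _ _ (a : ZFSet.{u} × ZFSet.{u}) =>
            ZFSet.sep (fun z => pair ∅ z ∈ a.1) a.2) := by
          apply_rules (transparency := .reducible) (maxDepth := 400) using is_poly
        have := hu.closed hM (a := (im (v 0) (fun z => pair ∅ z) ∪ im c (fun z => pair {∅} z),
          VO)) (by simp [hcM, VO_mem hM])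
        rw [in_zfset] at this
        refine Set.mem_of_eq_of_mem ?_ this
        ext z
        rw [ZFSet.mem_sep, ZFSet.mem_union, mem_img, mem_img]
        constructor
        · intro hz
          exact ⟨hvV hz, Or.inl ⟨z, hz, rfl⟩⟩
        · rintro ⟨_, ⟨z', hz', he⟩ | ⟨z', hz', he⟩⟩
          · rw [← (pair_inj.1 he).2]
            exact hz'
          · exact absurd (pair_inj.1 he).1.symm z_ne
      have h1 : c ∈ M := by
        have hu : U KZ.{u} (fun _ _ (a : ZFSet.{u} × ZFSet.{u}) =>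
            ZFSet.sep (fun z => pair {∅} z ∈ a.1) a.2) := by
          apply_rules (transparency := .reducible) (maxDepth := 400) using is_poly
        have := hu.closed hM (a := (im (v 0) (fun z => pair ∅ z) ∪ im c (fun z => pair {∅} z),
          VO)) (by simp [hcM, VO_mem hM])
        rw [in_zfset] at this
        refine Set.mem_of_eq_of_mem ?_ this
        ext z
        rw [ZFSet.mem_sep, ZFSet.mem_union, mem_img, mem_img]
        constructor
        · intro hz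
          exact ⟨hcV hz, Or.inr ⟨z, hz, rfl⟩⟩
        · rintro ⟨_, ⟨z', hz', he⟩ | ⟨z', hz', he⟩⟩
          · exact absurd (pair_inj.1 he).1 z_ne
          · rw [← (pair_inj.1 he).2]
            exact hz'
      intro i
      refine Fin.cases ?_ (fun j => ?_) i
      · exact h0
      · exact hc' M hM h1 j

end Pool.Agent.Helper66.GP
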