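import Pool.Agent.Helper66.GP.Z2

/-! # FINAL, part 3: measurability in the inner model -/

universe u

namespace Pool.Agent.Helper66.GP

open ZFSet MeasureTheory Pool.Agent.Helper66.SC Pool.Agent.Helper22.SC
open Pool.Agent.Helper76.GP (mem_Rl FF_VO omega_VO VO_mem pair_VO empty_VO)

/-- Every set of reals in the inner model is measurable. -/
theorem z_meas (hB1 : ST_B1.{u}) (hP1 : ST_P1.{u}) (hP4 : ST_P4.{u}) (hDN : ST_DN.{u})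
    (hDF : ST_DF.{u}) (hMH : ST_MH.{u}) (hLB : ST_LB.{u}) (hL6 : ST_L6.{u})
    {M W : Set ZFSet.{u}} {κ : Ordinal.{u}} {H : ZFSet.{u}} (hM : Ctm M) (hI : Inac M κ)
    (hmu : MuR ∈ M) (hL : Lev M κ W) (hH : IsGeneric W (PG W) H)
    {N : Set ZFSet.{u}} (hNe : N = LXO (Ext W H) (Rl (Ext W H)) {t | t ∈ AR (Ext W H) H})
    (hN : IsZF N ∅) (hNW : N ⊆ Ext W H) (hX : Rl (Ext W H) ∈ N)
    (hA : AR (Ext W H) H ∈ N) (S : ZFSet.{u}) (hS : S ∈ N) : Measb N S := by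
  obtain ⟨hW, hMW, hord, _⟩ := (hL6 M κ hM hI).2 W hL
  obtain ⟨hPW, h0, hPG⟩ := hP1.2.2.2.2.2.2.2.2.2 W ∅ hW.zf
  have hWW : W ⊆ Ext W H := fun x hx => sub_ext hW hPW hH hx
  have hW2 := st_KE W _ H hW hPW hH
  have hreal : ∀ x ∈ Ext W H, x ⊆ VO → x ∈ W := fun x hx hxV => hP4 W H hW hH x hx hxV
  have hRl : Rl (Ext W H) = Rl W := by
    ext x
    rw [mem_Rl, mem_Rl]
    exact ⟨fun h => ⟨h.1, hreal x h.2 h.1⟩, fun h => ⟨h.1, hWW h.2⟩⟩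
  have hXt : (Rl (Ext W H)).IsTransitive :=
    (Helper76.GP.st_VO.2.2.2.2.2.2.2.1 (Ext W H) ∅ hW2.zf).2.2.1
  have hAX : AR (Ext W H) H ⊆ (Rl (Ext W H)).prod (Rl (Ext W H)) :=
    fun _ h => (ZFSet.mem_sep.1 h).1
  rw [hNe] at hS
  obtain ⟨k, φ, v, hv, hφ⟩ := hLB (Ext W H) (Rl (Ext W H)) (AR (Ext W H) H) hW2.zf
    (hNW hX) (hNW hA) hXt hAX S hS
  classical
  -- code the parameters
  obtain ⟨c, hc, hc'⟩ := z_code hW.zf k (fun i => if v i ∈ Rl W then v i else ∅) (by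
    intro i
    split_ifs with h
    · exact h
    · exact mem_Rl.2 ⟨fun x hx => absurd hx (ZFSet.notMem_empty x), hW.zf.empty_mem⟩)
  obtain ⟨M', p, hM', hMM', hI', hL', hcM', hpM', hpH, hdom⟩ := hDN M W κ H hM hI hL hH c hc
  have hmu' : MuR ∈ M' := hMM' hmu
  have hvM' : ∀ i, v i ∈ M' := by
    intro i
    by_cases h : v i ∈ Rl W
    · have := hc' M' hM'.zf hcM' i
      simpa [h] using this
    · rcases hv i with h1 | ⟨o, ho, h1⟩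
      · rw [hRl] at h1
        exact absurd h1 h
      · rw [h1]
        exact hMM' ((hord o).1 ((ext_ord hW hPW hH o).1 ho))
  obtain ⟨hW', hMW', hord', hsm'⟩ := (hL6 M' κ hM' hI').2 W hL'
  have hpP : IsP W p := (hPG p).1 (hH.sub hpH)
  obtain ⟨φ', hφ'⟩ := z_sub hP1 φ
  obtain ⟨ψ, hψ⟩ := hDF k φ'
  have hDec : ∀ y ∈ W, y ⊆ ZFSet.omega → IsGeneric M' (RB M') (Fy M' y) →
      Dec M' W κ p y := fun y hy hyo hg =>
    { ctm := hM'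
      inac := hI'
      lev := hL'
      mu := hmu'
      mem := hpM'
      isP := hpP
      dom := hdom
      ymem := hy
      yom := hyo
      rnd := hg }
  -- the decision
  have hdecide : ∀ y ∈ W, y ⊆ ZFSet.omega → IsGeneric M' (RB M') (Fy M' y) →
      (y ∈ S ↔ Sat (Ext M' (Fy M' y)) ∅ ψ (Fin.cons (oz κ) (Fin.cons p (Fin.cons y v)))) := by
    intro y hy hyo hg
    rw [← hψ M' W κ p y (hDec y hy hyo hg) v hvM' H hH hpH,
      hφ' _ hW2.zf H (gen_mem_ext hW hPW hH) y (hWW hy) v (fun i => hWW (hMW' (hvM' i)))]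
    exact hφ y (hWW hy)
  have hR' := Helper76.GP.RB_mem hM'.zf hmu'
  have h0' : ∅ ∈ RB M' := (Helper76.GP.st_MB.2.2.2.2 M' ∅ hM'.zf hmu').2
  obtain ⟨D₁, hD₁, hD₁R, hD₁a, hD₁b⟩ := z_dec hM' hmu' ψ hI'.mem hpM' hvM'
  obtain ⟨D₂, hD₂, hD₂R, hD₂a, hD₂b⟩ := z_dec hM' hmu' ψ.neg hI'.mem hpM' hvM'
  have hdense : ∀ b ∈ RB M', ∃ c, b ⊆ c ∧ (c ∈ D₁ ∨ c ∈ D₂) := by
    intro b hb
    obtain ⟨G, hG, hbG⟩ := exists_generic hM' hR' h0' hb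
    by_cases hs : Sat (Ext M' G) ∅ ψ (Fin.cons (oz κ) (Fin.cons p (Fin.cons (YF G) v)))
    · obtain ⟨c, hc, hbc⟩ := hD₁b G hG hs b hbG
      exact ⟨c, hbc, Or.inl hc⟩
    · obtain ⟨c, hc, hbc⟩ := hD₂b G hG hs b hbG
      exact ⟨c, hbc, Or.inr hc⟩
  have hsmall : Small M' κ (RB M') := Helper22.GP.small_RB hB1 hM' hI' hmu'
  have hsmall2 := (hB1 M' κ hM'.zf hM'.wo hI').1 _ hsmall
  intro ε hε
  obtain ⟨U, hU, V, hV, hUS, hVS, hUV, hall⟩ := hMH M' W D₁ D₂ hM' hmu' hW hMW'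
    (hsm' _ hsmall2) hD₁ hD₂ hD₁R hD₂R hdense ε hε
  refine ⟨U, z_real hN hWW hX hU (hUS.trans z_Str_VO), V,
    z_real hN hWW hX hV (hVS.trans z_Str_VO), hUS, hVS, ?_, hUV⟩
  intro y hy hyo
  have hyW : y ∈ W := hreal y (hNW hy) (hyo.trans omega_VO)
  obtain ⟨a1, a2⟩ := hall y hyW hyo
  constructor
  · intro hyS
    by_contra hn
    obtain ⟨hg, c, hcD, hcF⟩ := a1 hn
    exact hD₂a c hcD y hyo hg hcF ((hdecide y hyW hyo hg).1 hyS)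
  · intro hyS
    by_contra hn
    obtain ⟨hg, c, hcD, hcF⟩ := a2 hn
    exact hyS ((hdecide y hyW hyo hg).2 (hD₁a c hcD y hyo hg hcF))

end Pool.Agent.Helper66.GP
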