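import Pool.Agent.Helper66.GP.Z3
import Pool.Agent.Helper66.GP.ABSa
import Pool.Agent.Helper66.GP.PP
import Pool.Agent.Helper44.GP.B2
import Pool.Agent.Helper44.GP.LB
import Pool.Agent.Helper44.GP.L1
import Pool.Agent.Helper13.GP.P3
import Pool.Agent.Helper13.GP.P5
import Pool.Agent.Helper13.GP.QU
import Pool.Agent.Helper22.GP.DN
import Pool.Agent.Helper22.GP.L2
import Pool.Agent.Helper22.GP.L3456
import Pool.Agent.Helper26.GP.MC
import Pool.Agent.Helper26.GP.ME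
import Pool.Agent.Helper28.GP.FC
import Pool.Agent.Helper34.GP.FD
import Pool.Agent.Helper41.GP.BM
import Pool.Agent.Helper50.GP.CD
import Pool.Agent.Helper50.GP.FA
import Pool.Agent.Helper50.GP.TW
import Pool.Agent.Helper58.GP.IP
import Pool.Agent.Helper76.GP.MH
import Pool.Agent.Helper77.GP.MF

/-! # FINAL, part 4: the theorem -/

universe u

namespace Pool.Agent.Helper66.GP

open ZFSet MeasureTheory Pool.Agent.Helper66.SC Pool.Agent.Helper22.SC

theorem all_B1 : ST_B1.{u} := Helper44.GP.st_B1 Helper22.GP.st_FN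
theorem all_B2 : ST_B2.{u} := Helper44.GP.st_B2 Helper22.GP.st_FN
theorem all_B3 : ST_B3.{u} := Helper22.GP.st_B3 all_B1
theorem all_B4 : ST_B4.{u} := Helper22.GP.st_B4 all_B1 Helper44.GP.st_PL
theorem all_L1 : ST_L1.{u} := Helper44.GP.st_L1 st_ABS
theorem all_L2 : ST_L2.{u} := Helper22.GP.st_L2 all_B2 all_L1
theorem all_L3 : ST_L3.{u} := Helper22.GP.st_L3 all_B1 all_B2 Helper44.GP.st_PL
  Helper13.GP.st_QU st_ABS
theorem all_L4 : ST_L4.{u} := Helper22.GP.st_L4 all_B2 Helper44.GP.st_PL st_ABS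
theorem all_P4 : ST_P4.{u} := Helper13.GP.st_P4 Helper44.GP.st_P1 Helper76.GP.st_VO
  (Helper13.GP.st_P3 Helper44.GP.st_P1 Helper76.GP.st_VO)
theorem all_P5 : ST_P5.{u} := Helper13.GP.st_P5 Helper44.GP.st_P1 Helper44.GP.st_P2
  Helper76.GP.st_VO
theorem all_CD : ST_CD.{u} := Helper50.GP.st_CD2 Helper76.GP.st_VO
theorem all_TW : ST_TW.{u} := Helper50.GP.st_TW Helper44.GP.st_PL st_PP Helper22.GP.st_COL
  all_B1 all_B3 all_B4 all_L2 all_L4 Helper58.GP.st_IP Helper76.GP.st_VO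
theorem all_MC : ST_MC.{u} := Pool.Agent.Helper26.GP.st_MC Helper76.GP.st_MB
theorem all_MF : ST_MF.{u} := st_MF Helper76.GP.st_MB all_MC
  (Pool.Agent.Helper26.GP.st_ME Helper76.GP.st_MB)
theorem all_DE : ST_DE.{u} := st_DE all_TW all_MF all_L3 Helper22.GP.st_L6 all_CD
  Helper44.GP.st_P1 all_B1 all_B3
theorem all_DF : ST_DF.{u} := Helper22.GP.st_DF all_B1 all_L2 all_L3 Helper44.GP.st_P1 all_DE
theorem all_DN : ST_DN.{u} := Helper22.GP.st_DN all_B1 Helper44.GP.st_PL Helper44.GP.st_P1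
  Helper44.GP.st_P2 all_CD
theorem all_MH : ST_MH.{u} := Helper76.GP.st_MH all_MC
theorem all_FA : ST_FA.{u} := Helper50.GP.st_FA Helper76.GP.st_VO

/-- There is a model of ZF with countable choice for sets of reals, in which all sets of reals are
measurable and `GP(all)` fails. -/
theorem goal : Goal := by
  obtain ⟨M, κ, hM, hI, hmu⟩ := Helper41.GP.st_BM Helper76.GP.st_VO
  obtain ⟨⟨W, hL⟩, h6⟩ := Helper22.GP.st_L6 M κ hM hI
  obtain ⟨hW, hMW, -, -⟩ := h6 W hL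
  obtain ⟨hPW, h0, hPG⟩ := (Helper44.GP.st_P1).2.2.2.2.2.2.2.2.2 W ∅ hW.zf
  obtain ⟨H, hH, -⟩ := exists_generic hW hPW h0 h0
  have hW2 := st_KE W _ H hW hPW hH
  have hVO := Helper76.GP.st_VO.2.2.2.2.2.2.2.1 (Ext W H) ∅ hW2.zf
  have hX : Rl (Ext W H) ∈ Ext W H := hVO.2.1
  have hXt : (Rl (Ext W H)).IsTransitive := hVO.2.2.1
  have hA : AR (Ext W H) H ∈ Ext W H :=
    in_zfset.1 ((Helper44.GP.st_P1).2.2.2.2.2.1.closed hW2.zf (a := H)
      (in_zfset.2 (gen_mem_ext hW hPW hH)))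
  have hAX : AR (Ext W H) H ⊆ (Rl (Ext W H)).prod (Rl (Ext W H)) :=
    fun _ h => (ZFSet.mem_sep.1 h).1
  obtain ⟨hNW, hN, hXN, hAN⟩ := Helper44.GP.st_LA (Ext W H) _ _ hW2.zf hX hA hXt hAX
  refine ⟨LXO (Ext W H) (Rl (Ext W H)) {t | t ∈ AR (Ext W H) H}, hW2.ctb.mono hNW, hN, ?_, ?_, ?_⟩
  · exact all_FA _ _ hW2.zf hW2.wo hN hNW (fun x hx => hN.trans _ hXN x hx)
  · intro S hS _
    exact z_meas all_B1 Helper44.GP.st_P1 all_P4 all_DN all_DF all_MH Helper44.GP.st_LB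
      Helper22.GP.st_L6 hM hI hmu hL hH rfl hN hNW hXN hAN S hS
  · exact z_notGP Helper44.GP.st_P1 all_P4 all_P5 Helper28.GP.st_FC Helper34.GP.st_FD hW hH hN
      hNW hXN hAN

end Pool.Agent.Helper66.GP
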